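import Mathlib

set_option autoImplicit false

/-!
Counting permutations for which a given point returns quickly.
-/

namespace Pool.Agent.W5h10.RL

open Finset

open scoped Classical

variable {X : Type} [Fintype X]

/-- Permutations for which `x` does not return before time `j`. -/
noncomputable def noRet (x : X) (j : ℕ) : Finset (Equiv.Perm X) :=
  univ.filter (fun γ => ∀ i, 1 ≤ i → i < j → (γ ^ i) x ≠ x)

theorem mem_noRet {x : X} {j : ℕ} {γ : Equiv.Perm X} :
    γ ∈ noRet x j ↔ ∀ i, 1 ≤ i → i < j → (γ ^ i) x ≠ x := by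
  simp [noRet]

omit [Fintype X] in
theorem swap_pow {x z : X} {γ : Equiv.Perm X} {j : ℕ}
    (h1 : ∀ i, 1 ≤ i → i < j → (γ ^ i) x ≠ x) (h2 : ∀ i, 1 ≤ i → i < j → (γ ^ i) x ≠ z) :
    ∀ i, i < j → ((Equiv.swap x z * γ) ^ i) x = (γ ^ i) x := by
  intro i
  induction i with
  | zero => intro _; simp
  | succ i ih =>
    intro hi
    rw [pow_succ', Equiv.Perm.mul_apply, ih (by omega), Equiv.Perm.mul_apply]
    have h3 : γ ((γ ^ i) x) = (γ ^ (i + 1)) x := by rw [pow_succ', Equiv.Perm.mul_apply]
    rw [h3]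
    exact Equiv.swap_apply_of_ne_of_ne (h1 _ (by omega) hi) (h2 _ (by omega) hi)

theorem ret_step (x : X) (j : ℕ) (hj : 1 ≤ j) :
    ((noRet x j).filter (fun γ => (γ ^ j) x = x)).card * (Fintype.card X + 1 - j) ≤
      (noRet x j).card := by
  set S := (noRet x j).filter (fun γ => (γ ^ j) x = x) with hS
  set Z : Equiv.Perm X → Finset X := fun γ => univ \ (Ico 1 j).image (fun i => (γ ^ i) x) with hZ
  have hZc : ∀ γ, Fintype.card X + 1 - j ≤ (Z γ).card := by
    intro γ
    have h1 := card_sdiff_add_card (univ : Finset X) ((Ico 1 j).image (fun i => (γ ^ i) x))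
    have h2 := card_image_le (s := Ico 1 j) (f := fun i => (γ ^ i) x)
    rw [Nat.card_Ico] at h2
    have h3 : (univ ∪ (Ico 1 j).image (fun i => (γ ^ i) x)).card = Fintype.card X := by
      rw [union_eq_left.2 (subset_univ _), card_univ]
    have h4 : (Z γ).card = (univ \ (Ico 1 j).image (fun i => (γ ^ i) x)).card := rfl
    omega
  have h1 : S.card * (Fintype.card X + 1 - j) ≤ (S.sigma Z).card := by
    rw [card_sigma, ← smul_eq_mul, ← sum_const]
    exact sum_le_sum fun γ _ => hZc γ
  refine h1.trans ?_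
  have hmem : ∀ γ z, γ ∈ S → z ∈ Z γ → (∀ i, 1 ≤ i → i < j → (γ ^ i) x ≠ x) ∧
      (∀ i, 1 ≤ i → i < j → (γ ^ i) x ≠ z) ∧ (γ ^ j) x = x := by
    intro γ z hγ hz
    obtain ⟨h2, h3⟩ := mem_filter.1 hγ
    refine ⟨mem_noRet.1 h2, ?_, h3⟩
    intro i hi hij h
    obtain ⟨_, h5⟩ := mem_sdiff.1 hz
    exact h5 (mem_image.2 ⟨i, mem_Ico.2 ⟨hi, hij⟩, h⟩)
  have hlast : ∀ γ z, γ ∈ S → z ∈ Z γ → ((Equiv.swap x z * γ) ^ j) x = z := by
    intro γ z hγ hz
    obtain ⟨h2, h3, h4⟩ := hmem γ z hγ hz
    obtain ⟨i, rfl⟩ : ∃ i, j = i + 1 := ⟨j - 1, by omega⟩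
    rw [pow_succ', Equiv.Perm.mul_apply, swap_pow h2 h3 i (by omega), Equiv.Perm.mul_apply]
    have h5 : γ ((γ ^ i) x) = (γ ^ (i + 1)) x := by rw [pow_succ', Equiv.Perm.mul_apply]
    rw [h5, h4, Equiv.swap_apply_left]
  refine card_le_card_of_injOn (fun y => Equiv.swap x y.2 * y.1) ?_ ?_
  · rintro ⟨γ, z⟩ hy
    rw [mem_coe, mem_sigma] at hy
    obtain ⟨h2, h3, h4⟩ := hmem γ z hy.1 hy.2
    rw [mem_coe, mem_noRet]
    intro i hi hij
    rw [swap_pow h2 h3 i hij]
    exact h2 i hi hij
  · rintro ⟨γ, z⟩ hy ⟨γ', z'⟩ hy' heq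
    rw [mem_coe, mem_sigma] at hy hy'
    have h5 := hlast γ z hy.1 hy.2
    have h6 := hlast γ' z' hy'.1 hy'.2
    have heq' : Equiv.swap x z * γ = Equiv.swap x z' * γ' := heq
    have h7 : z = z' := by rw [← h5, ← h6, heq']
    subst h7
    have h8 : γ = γ' := mul_left_cancel heq'
    subst h8
    rfl

theorem noRet_succ (x : X) (j : ℕ) (hj : 1 ≤ j) :
    (noRet x (j + 1)).card + ((noRet x j).filter (fun γ => (γ ^ j) x = x)).card =
      (noRet x j).card := by
  have h1 : noRet x (j + 1) = (noRet x j).filter (fun γ => ¬ (γ ^ j) x = x) := by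
    ext γ
    simp only [noRet, mem_filter, mem_univ, true_and]
    constructor
    · intro h
      exact ⟨fun i hi hij => h i hi (by omega), h j hj (by omega)⟩
    · rintro ⟨h2, h3⟩ i hi hij
      rcases Nat.lt_or_ge i j with h4 | h4
      · exact h2 i hi h4
      · have h5 : i = j := by omega
        rw [h5]
        exact h3
  rw [h1, add_comm]
  exact card_filter_add_card_filter_not _

theorem noRet_card (x : X) (j : ℕ) (hj : 1 ≤ j) :
    (Fintype.card X + 1 - j) * (Fintype.card X - 1).factorial ≤ (noRet x j).card := by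
  induction j, hj using Nat.le_induction with
  | base =>
    have h1 : noRet x 1 = univ := by
      ext γ
      simp only [noRet, mem_filter, mem_univ, true_and, iff_true]
      intro i hi hi'
      omega
    have h2 : 1 ≤ Fintype.card X := Fintype.card_pos_iff.2 ⟨x⟩
    rw [h1, card_univ, Fintype.card_perm, Nat.add_sub_cancel]
    exact (Nat.mul_factorial_pred (by omega)).le
  | succ j hj ih =>
    have h1 := ret_step x j hj
    have h2 := noRet_succ x j hj
    rcases Nat.lt_or_ge (Fintype.card X) (j + 1) with h3 | h3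
    · have h4 : Fintype.card X + 1 - (j + 1) = 0 := by omega
      rw [h4, zero_mul]
      exact Nat.zero_le _
    · obtain ⟨t, ht⟩ : ∃ t, Fintype.card X = j + t + 1 := ⟨Fintype.card X - j - 1, by omega⟩
      have h4 : Fintype.card X + 1 - j = t + 2 := by omega
      have h5 : Fintype.card X + 1 - (j + 1) = t + 1 := by omega
      rw [h4] at h1 ih
      rw [h5]
      generalize (Fintype.card X - 1).factorial = c at *
      generalize (noRet x (j + 1)).card = a' at *
      generalize (noRet x j).card = a at *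
      generalize ((noRet x j).filter (fun γ => (γ ^ j) x = x)).card = f at *
      have h6 : (t + 2) * ((t + 1) * c) ≤ (t + 2) * a' := by
        have h7 : (t + 1) * ((t + 2) * c) ≤ (t + 1) * a := Nat.mul_le_mul_left _ ih
        have h8 : (t + 2) * a' + f * (t + 2) = (t + 2) * a := by rw [← h2]; ring
        have h9 : (t + 2) * a = (t + 1) * a + a := by ring
        have h10 : (t + 2) * ((t + 1) * c) = (t + 1) * ((t + 2) * c) := by ring
        omega
      exact Nat.le_of_mul_le_mul_left h6 (by omega)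

/-- At most `(m - 1) (n - 1)!` permutations return `x` to itself before time `m`. -/
theorem ret_card (x : X) (m : ℕ) :
    (univ.filter (fun γ : Equiv.Perm X => ∃ i, 1 ≤ i ∧ i < m ∧ (γ ^ i) x = x)).card ≤
      (m - 1) * (Fintype.card X - 1).factorial := by
  have h2 : 1 ≤ Fintype.card X := Fintype.card_pos_iff.2 ⟨x⟩
  rcases Nat.eq_zero_or_pos m with h0 | h0
  · subst h0
    rw [card_eq_zero.2]
    · exact Nat.zero_le _
    · rw [filter_eq_empty_iff]
      rintro γ _ ⟨i, _, h, _⟩
      omega
  · have h1 := noRet_card x m h0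
    have h3 : (noRet x m).card + (univ.filter (fun γ : Equiv.Perm X =>
        ∃ i, 1 ≤ i ∧ i < m ∧ (γ ^ i) x = x)).card = (Fintype.card X).factorial := by
      rw [← Fintype.card_perm, ← card_univ]
      have h4 : noRet x m = univ.filter (fun γ : Equiv.Perm X =>
          ¬ ∃ i, 1 ≤ i ∧ i < m ∧ (γ ^ i) x = x) := by
        ext γ
        simp only [noRet, mem_filter, mem_univ, true_and]
        push Not
        rfl
      rw [h4, add_comm]
      exact card_filter_add_card_filter_not _
    have h5 : Fintype.card X * (Fintype.card X - 1).factorial = (Fintype.card X).factorial :=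
      Nat.mul_factorial_pred (by omega)
    rcases Nat.lt_or_ge (Fintype.card X + 1) m with h6 | h6
    · have h7 : Fintype.card X * (Fintype.card X - 1).factorial ≤
          (m - 1) * (Fintype.card X - 1).factorial := Nat.mul_le_mul_right _ (by omega)
      omega
    · obtain ⟨t, ht⟩ : ∃ t, Fintype.card X + 1 = m + t := ⟨Fintype.card X + 1 - m, by omega⟩
      have h8 : Fintype.card X + 1 - m = t := by omega
      rw [h8] at h1
      have h9 : Fintype.card X = (m - 1) + t := by omega
      have h10 : Fintype.card X * (Fintype.card X - 1).factorial =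
          (m - 1) * (Fintype.card X - 1).factorial + t * (Fintype.card X - 1).factorial := by
        rw [← Nat.add_mul, ← h9]
      omega

end Pool.Agent.W5h10.RL
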