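import Pool.Agent.W111.LAR.Dec
import Pool.Agent.W5h10.RL.Skew

set_option autoImplicit false

/-!
Graphs of permutations; the load criterion if at most one of the cycles through each point is
short.
-/

namespace Pool.Agent.W5h10.RL

open Finset SimpleGraph H931R3.LA Pool.Agent.W111.LAR

/-- The graph of a permutation. -/
def pg {W : Type} (P : Equiv.Perm W) : SimpleGraph W where
  Adj a b := a ≠ b ∧ (P a = b ∨ P b = a)
  symm.symm _ _ h := ⟨h.1.symm, h.2.symm⟩
  loopless.irrefl _ h := h.1 rfl

theorem pg_deg {W : Type} [Finite W] (P : Equiv.Perm W) (a : W) :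
    ((pg P).neighborSet a).ncard ≤ 2 := by
  have hsub : (pg P).neighborSet a ⊆ {P a, P.symm a} := by
    rintro b ⟨_, h | h⟩
    · left; exact h.symm
    · right
      rw [Set.mem_singleton_iff, ← h, Equiv.symm_apply_apply]
  refine le_trans (Set.ncard_le_ncard hsub (Set.toFinite _)) ?_
  exact Set.ncard_insert_le _ _ |>.trans (by simp)

theorem pg_reach {W : Type} (P : Equiv.Perm W) (a : W) (n : ℕ) :
    (pg P).Reachable a ((P ^ n) a) := by
  induction n with
  | zero => simp
  | succ n ih =>
    refine ih.trans ?_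
    rw [pow_succ', Equiv.Perm.mul_apply]
    by_cases h : (P ^ n) a = P ((P ^ n) a)
    · rw [← h]
    · exact SimpleGraph.Adj.reachable ⟨h, Or.inl rfl⟩

theorem pg_size {W : Type} [Finite W] {M : ℕ} {P : Equiv.Perm W} {a : W} (h : ¬ Sh M P a) :
    M ≤ csize (pg P) a := by
  classical
  have h1 : (fun n => (P ^ n) a) '' (↑(Finset.range M) : Set ℕ) ⊆ {b | (pg P).Reachable a b} := by
    rintro _ ⟨n, _, rfl⟩
    exact pg_reach P a n
  have h2 := Set.ncard_le_ncard h1 (Set.toFinite _)
  rw [Set.ncard_image_of_injOn, Set.ncard_coe_finset, card_range] at h2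
  · exact h2
  · have key : ∀ n m, n < m → m < M → (P ^ n) a ≠ (P ^ m) a := by
      intro n m hnm hm heq
      refine h ⟨m - n, by omega, by omega, ?_⟩
      have h3 : (P ^ n) ((P ^ (m - n)) a) = (P ^ n) a := by
        rw [← Equiv.Perm.mul_apply, ← pow_add, heq]
        congr 2
        omega
      exact (P ^ n).injective h3
    intro n hn m hm heq
    rw [Finset.mem_coe, Finset.mem_range] at hn hm
    rcases Nat.lt_trichotomy n m with h3 | h3 | h3
    · exact absurd heq (key n m h3 hm)
    · exact h3
    · exact absurd heq.symm (key m n h3 hn)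

theorem csize_three {W : Type} [Finite W] {H : SimpleGraph W} {v : W} (h : Cyc H v) :
    3 ≤ csize H v := by
  obtain ⟨w, c, hc, hl⟩ := exists_cycle h
  exact hc.three_le_length.trans hl

open Classical in
theorem cov_perm {W κ : Type} [Finite W] [Fintype κ] (P : κ → Equiv.Perm W) (M : ℕ)
    (hM : 6 * Fintype.card κ ≤ M + 6)
    (h : ∀ a i j, i ≠ j → ¬ (Sh M (P i) a ∧ Sh M (P j) a)) :
    Cov (⨆ i, pg (P i)) (Fintype.card κ + 1) := by
  refine cov_of_load (fun i => pg (P i)) (fun i v => pg_deg _ v) fun a => ?_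
  rcases isEmpty_or_nonempty κ with he | ⟨⟨i1⟩⟩
  · simp
  · obtain ⟨i0, hi0⟩ : ∃ i0, ∀ i, i ≠ i0 → ¬ Sh M (P i) a := by
      by_cases hex : ∃ i, Sh M (P i) a
      · obtain ⟨i0, hi⟩ := hex
        exact ⟨i0, fun i hne hs => h a i i0 hne ⟨hs, hi⟩⟩
      · exact ⟨i1, fun i _ hs => hex ⟨i, hs⟩⟩
    rw [← add_sum_erase univ _ (mem_univ i0)]
    have h1 : (if Cyc (pg (P i0)) a then (2 : ℝ) / csize (pg (P i0)) a else 0) ≤ 2 / 3 := by
      split_ifs with hc
      · have h2 : (3 : ℝ) ≤ csize (pg (P i0)) a := by exact_mod_cast csize_three hc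
        exact div_le_div_of_nonneg_left (by norm_num) (by norm_num) h2
      · norm_num
    have h2 : ∑ i ∈ univ.erase i0, (if Cyc (pg (P i)) a then (2 : ℝ) / csize (pg (P i)) a else 0) ≤
        1 / 3 := by
      by_cases hK : Fintype.card κ ≤ 1
      · have h3 : univ.erase i0 = (∅ : Finset κ) := by
          rw [← card_eq_zero, card_erase_of_mem (mem_univ _), card_univ]
          omega
        rw [h3, sum_empty]
        norm_num
      · have hMpos : (0 : ℝ) < M := by
          have : 0 < M := by omega
          exact_mod_cast this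
        refine (sum_le_sum (g := fun _ => 2 / (M : ℝ)) fun i hi => ?_).trans ?_
        · split_ifs with hc
          · have h4 := pg_size (hi0 i (mem_erase.1 hi).1)
            have h5 : (M : ℝ) ≤ csize (pg (P i)) a := by exact_mod_cast h4
            exact div_le_div_of_nonneg_left (by norm_num) hMpos h5
          · positivity
        · rw [sum_const, nsmul_eq_mul, card_erase_of_mem (mem_univ _), card_univ,
            ← mul_div_assoc, div_le_iff₀ hMpos]
          have h6 : ((Fintype.card κ - 1 : ℕ) : ℝ) = (Fintype.card κ : ℝ) - 1 := by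
            rw [Nat.cast_sub (by omega)]
            norm_num
          have h7 : (6 : ℝ) * Fintype.card κ ≤ M + 6 := by exact_mod_cast hM
          rw [h6]
          linarith
    linarith

end Pool.Agent.W5h10.RL
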