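import Pool.Agent.W111.LAR.Top
import Pool.Agent.W5h10.RL.Pg
import Pool.Agent.W5h10.RL.Perm

set_option autoImplicit false

/-!
Lifts of multigraphs: decomposition into graphs of permutations, and the number of lifts with large
linear arboricity.
-/

namespace Pool.Agent.W5h10.RL

open Finset SimpleGraph H931R3.LA Pool.Agent.W111.LAR

/-- The simple graph of the lift. -/
def lift {V E Γ X : Type} [SMul Γ X] (p q : E → V) (σ : E → Γ) : SimpleGraph (V × X) where
  Adj a b := a ≠ b ∧ ∃ e, (p e = a.1 ∧ q e = b.1 ∧ σ e • a.2 = b.2) ∨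
    (p e = b.1 ∧ q e = a.1 ∧ σ e • b.2 = a.2)
  symm.symm _ _ h := ⟨h.1.symm, h.2.imp fun _ h => h.symm⟩
  loopless.irrefl _ h := h.1 rfl

theorem base_decomp {V E : Type} [Fintype V] [Fintype E] [DecidableEq V] [DecidableEq E]
    (p q : E → V) (k : ℕ)
    (h : ∀ v, (univ.filter (fun e => p e = v)).card + (univ.filter (fun e => q e = v)).card =
      2 * k) :
    ∃ (t : E → Bool) (π : Fin k → Equiv.Perm V) (φ : E ≃ Fin k × V),
      ∀ e, (if t e then p e else q e) = (φ e).2 ∧
        (if t e then q e else p e) = π (φ e).1 (φ e).2 := by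
  obtain ⟨t, ht1, ht2⟩ := orient p q k h
  set tl : E → V := fun e => if t e then p e else q e with htl
  set hd : E → V := fun e => if t e then q e else p e with hhd
  obtain ⟨ℓ, hℓ, h1, h2⟩ := konig tl hd k univ ht1 ht2
  let L : E → Fin k := fun e => ⟨ℓ e, hℓ e (mem_univ _)⟩
  have hcard : Fintype.card E = Fintype.card (Fin k × V) := by
    have h3 : (univ : Finset E).card = ∑ v ∈ (univ : Finset V),
        (univ.filter (fun e => tl e = v)).card :=
      card_eq_sum_card_fiberwise (fun e _ => mem_univ _)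
    rw [sum_congr rfl (fun v _ => ht1 v), sum_const, smul_eq_mul, card_univ, card_univ] at h3
    rw [Fintype.card_prod, Fintype.card_fin, h3, mul_comm]
  have hf : Function.Bijective (fun e => (L e, tl e)) := by
    refine (Fintype.bijective_iff_injective_and_card _).2 ⟨?_, hcard⟩
    intro e e' he
    have h3 := Prod.ext_iff.1 he
    exact h1 e (mem_univ _) e' (mem_univ _) h3.2 (congrArg Fin.val h3.1)
  have hg : Function.Bijective (fun e => (L e, hd e)) := by
    refine (Fintype.bijective_iff_injective_and_card _).2 ⟨?_, hcard⟩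
    intro e e' he
    have h3 := Prod.ext_iff.1 he
    exact h2 e (mem_univ _) e' (mem_univ _) h3.2 (congrArg Fin.val h3.1)
  let φ : E ≃ Fin k × V := Equiv.ofBijective _ hf
  let ψ : E ≃ Fin k × V := Equiv.ofBijective _ hg
  have hφ : ∀ e, φ e = (L e, tl e) := fun e => rfl
  have hψ : ∀ e, ψ e = (L e, hd e) := fun e => rfl
  have hφ' : ∀ i v, (L (φ.symm (i, v)), tl (φ.symm (i, v))) = (i, v) := by
    intro i v
    rw [← hφ, Equiv.apply_symm_apply]
  have hψ' : ∀ i v, (L (ψ.symm (i, v)), hd (ψ.symm (i, v))) = (i, v) := by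
    intro i v
    rw [← hψ, Equiv.apply_symm_apply]
  let π : Fin k → Equiv.Perm V := fun i =>
    { toFun := fun v => hd (φ.symm (i, v))
      invFun := fun v => tl (ψ.symm (i, v))
      left_inv := by
        intro v
        have h3 : ψ.symm (i, hd (φ.symm (i, v))) = φ.symm (i, v) := by
          rw [Equiv.symm_apply_eq, hψ]
          have h4 := Prod.ext_iff.1 (hφ' i v)
          exact Prod.ext h4.1.symm rfl
        show tl (ψ.symm (i, hd (φ.symm (i, v)))) = v
        rw [h3]
        exact (Prod.ext_iff.1 (hφ' i v)).2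
      right_inv := by
        intro v
        have h3 : φ.symm (i, tl (ψ.symm (i, v))) = ψ.symm (i, v) := by
          rw [Equiv.symm_apply_eq, hφ]
          have h4 := Prod.ext_iff.1 (hψ' i v)
          exact Prod.ext h4.1.symm rfl
        show hd (φ.symm (i, tl (ψ.symm (i, v)))) = v
        rw [h3]
        exact (Prod.ext_iff.1 (hψ' i v)).2 }
  refine ⟨t, π, φ, fun e => ⟨rfl, ?_⟩⟩
  show hd e = hd (φ.symm ((φ e).1, (φ e).2))
  rw [Prod.mk.eta, Equiv.symm_apply_apply]

section

variable {V E Γ X : Type} [Group Γ] [MulAction Γ X]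

/-- The cocycles of a voltage assignment. -/
def toCoc {k : ℕ} (t : E → Bool) (φ : E ≃ Fin k × V) (σ : E → Γ) : Fin k → V → Γ :=
  fun i v => if t (φ.symm (i, v)) then σ (φ.symm (i, v)) else (σ (φ.symm (i, v)))⁻¹

theorem toCoc_inj {k : ℕ} (t : E → Bool) (φ : E ≃ Fin k × V) :
    Function.Injective (toCoc (Γ := Γ) t φ) := by
  intro σ τ h
  funext e
  have h1 := congrFun (congrFun h (φ e).1) (φ e).2
  simp only [toCoc, Prod.mk.eta, Equiv.symm_apply_apply] at h1
  split_ifs at h1 with h2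
  · exact h1
  · exact inv_injective h1

theorem lift_eq {k : ℕ} (p q : E → V) (t : E → Bool) (π : Fin k → Equiv.Perm V)
    (φ : E ≃ Fin k × V)
    (h : ∀ e, (if t e then p e else q e) = (φ e).2 ∧
        (if t e then q e else p e) = π (φ e).1 (φ e).2) (σ : E → Γ) :
    (lift p q σ : SimpleGraph (V × X)) = ⨆ i, pg (skew X (π i) (toCoc t φ σ i)) := by
  ext a b
  rw [iSup_adj]
  have key : ∀ (a b : V × X) (i : Fin k), skew X (π i) (toCoc t φ σ i) a = b →
      ∃ e, (p e = a.1 ∧ q e = b.1 ∧ σ e • a.2 = b.2) ∨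
        (p e = b.1 ∧ q e = a.1 ∧ σ e • b.2 = a.2) := by
    intro a b i hab
    subst hab
    obtain ⟨h1, h2⟩ := h (φ.symm (i, a.1))
    rw [Equiv.apply_symm_apply] at h1 h2
    refine ⟨φ.symm (i, a.1), ?_⟩
    have h3 : skew X (π i) (toCoc t φ σ i) a = (π i a.1, toCoc t φ σ i a.1 • a.2) := rfl
    rw [h3]
    by_cases ht : t (φ.symm (i, a.1)) = true
    · left
      rw [if_pos ht] at h1 h2
      refine ⟨h1, h2, ?_⟩
      simp only [toCoc, if_pos ht]
    · right
      rw [if_neg ht] at h1 h2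
      refine ⟨h2, h1, ?_⟩
      simp only [toCoc, if_neg ht, smul_inv_smul]
  have key2 : ∀ (a b : V × X) (e : E), p e = a.1 → q e = b.1 → σ e • a.2 = b.2 →
      ∃ i, skew X (π i) (toCoc t φ σ i) a = b ∨ skew X (π i) (toCoc t φ σ i) b = a := by
    intro a b e hp hq hσ
    obtain ⟨h1, h2⟩ := h e
    refine ⟨(φ e).1, ?_⟩
    by_cases ht : t e = true
    · left
      rw [if_pos ht] at h1 h2
      have h3 : φ.symm ((φ e).1, a.1) = e := by rw [← hp, h1]; simp
      refine Prod.ext ?_ ?_
      · show π (φ e).1 a.1 = b.1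
        rw [← hp, h1, ← h2, hq]
      · show toCoc t φ σ (φ e).1 a.1 • a.2 = b.2
        simp only [toCoc, h3, if_pos ht, hσ]
    · right
      rw [if_neg ht] at h1 h2
      have h3 : φ.symm ((φ e).1, b.1) = e := by rw [← hq, h1]; simp
      refine Prod.ext ?_ ?_
      · show π (φ e).1 b.1 = a.1
        rw [← hq, h1, ← h2, hp]
      · show toCoc t φ σ (φ e).1 b.1 • b.2 = a.2
        simp only [toCoc, h3, if_neg ht]
        rw [← hσ, inv_smul_smul]
  constructor
  · rintro ⟨hne, e, ⟨h1, h2, h3⟩ | ⟨h1, h2, h3⟩⟩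
    · obtain ⟨i, hi⟩ := key2 a b e h1 h2 h3
      exact ⟨i, hne, hi⟩
    · obtain ⟨i, hi⟩ := key2 b a e h1 h2 h3
      exact ⟨i, hne, hi.symm⟩
  · rintro ⟨i, hne, hi | hi⟩
    · exact ⟨hne, key a b i hi⟩
    · obtain ⟨e, he⟩ := key b a i hi
      exact ⟨hne, e, he.symm⟩

end

open Classical in
/-- The number of families of cocycles with two short cycles through the same point. -/
theorem bad_count {V Γ X : Type} [Group Γ] [MulAction Γ X] [Fintype V] [Fintype Γ] [Fintype X]
    (M s k : ℕ)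
    (hs : ∀ x : X, (univ.filter (fun γ : Γ => ∃ j, 1 ≤ j ∧ j < M ∧ γ ^ j • x = x)).card ≤ s)
    (π : Fin k → Equiv.Perm V) :
    2 * ((univ.filter (fun g : Fin k → V → Γ => ∃ a : V × X, ∃ i j, i ≠ j ∧
      Sh M (skew X (π i) (g i)) a ∧ Sh M (skew X (π j) (g j)) a)).card * Fintype.card Γ ^ 2) ≤
      (Fintype.card V * Fintype.card X) * (k * (k - 1)) * (s ^ 2 *
        Fintype.card (Fin k → V → Γ)) := by
  set B := univ.filter (fun g : Fin k → V → Γ => ∃ a : V × X, ∃ i j, i ≠ j ∧
      Sh M (skew X (π i) (g i)) a ∧ Sh M (skew X (π j) (g j)) a) with hB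
  set T : Finset (Fin k × Fin k) := univ.filter (fun z => z.1 < z.2) with hT
  set C : V × X → Fin k × Fin k → Finset (Fin k → V → Γ) := fun a z =>
    univ.filter (fun g => g z.1 ∈ univ.filter (fun g : V → Γ => Sh M (skew X (π z.1) g) a) ∧
      g z.2 ∈ univ.filter (fun g : V → Γ => Sh M (skew X (π z.2) g) a)) with hC
  have h1 : B ⊆ (univ ×ˢ T).biUnion (fun y => C y.1 y.2) := by
    intro g hg
    obtain ⟨_, a, i, j, hij, h2, h3⟩ := mem_filter.1 hg
    rw [mem_biUnion]
    rcases lt_or_gt_of_ne hij with h4 | h4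
    · refine ⟨(a, (i, j)), mem_product.2 ⟨mem_univ _, mem_filter.2 ⟨mem_univ _, h4⟩⟩, ?_⟩
      exact mem_filter.2 ⟨mem_univ _, mem_filter.2 ⟨mem_univ _, h2⟩,
        mem_filter.2 ⟨mem_univ _, h3⟩⟩
    · refine ⟨(a, (j, i)), mem_product.2 ⟨mem_univ _, mem_filter.2 ⟨mem_univ _, h4⟩⟩, ?_⟩
      exact mem_filter.2 ⟨mem_univ _, mem_filter.2 ⟨mem_univ _, h3⟩,
        mem_filter.2 ⟨mem_univ _, h2⟩⟩
  have h2 : ∀ a, ∀ z ∈ T, (C a z).card * Fintype.card Γ ^ 2 ≤
      s ^ 2 * Fintype.card (Fin k → V → Γ) := by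
    intro a z hz
    have hne : z.1 ≠ z.2 := (mem_filter.1 hz).2.ne
    have h3 := two_coord (univ.filter (fun g : V → Γ => Sh M (skew X (π z.1) g) a))
      (univ.filter (fun g : V → Γ => Sh M (skew X (π z.2) g) a)) z.1 z.2 hne
    have h4 := sh_count M s hs (π z.1) a.1 a.2
    have h5 := sh_count M s hs (π z.2) a.1 a.2
    have hpos : 0 < Fintype.card (V → Γ) := Fintype.card_pos
    have h6 : ((C a z).card * Fintype.card Γ ^ 2) * Fintype.card (V → Γ) ^ 2 ≤
        (s ^ 2 * Fintype.card (Fin k → V → Γ)) * Fintype.card (V → Γ) ^ 2 := by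
      calc ((C a z).card * Fintype.card Γ ^ 2) * Fintype.card (V → Γ) ^ 2
          = ((C a z).card * Fintype.card (V → Γ) ^ 2) * Fintype.card Γ ^ 2 := by ring
        _ = ((univ.filter (fun g : V → Γ => Sh M (skew X (π z.1) g) a)).card *
            (univ.filter (fun g : V → Γ => Sh M (skew X (π z.2) g) a)).card *
            Fintype.card (Fin k → V → Γ)) * Fintype.card Γ ^ 2 := by rw [← h3]
        _ = (((univ.filter (fun g : V → Γ => Sh M (skew X (π z.1) g) a)).card *
            Fintype.card Γ) *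
            ((univ.filter (fun g : V → Γ => Sh M (skew X (π z.2) g) a)).card *
              Fintype.card Γ)) * Fintype.card (Fin k → V → Γ) := by ring
        _ ≤ ((s * Fintype.card (V → Γ)) * (s * Fintype.card (V → Γ))) *
            Fintype.card (Fin k → V → Γ) :=
            Nat.mul_le_mul_right _ (Nat.mul_le_mul h4 h5)
        _ = _ := by ring
    exact Nat.le_of_mul_le_mul_right h6 (pow_pos hpos 2)
  have h3 : 2 * T.card ≤ k * (k - 1) := by
    have h4 : T.card = (univ.filter (fun z : Fin k × Fin k => z.2 < z.1)).card := by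
      refine card_bij (fun z _ => (z.2, z.1)) ?_ ?_ ?_
      · intro z hz
        exact mem_filter.2 ⟨mem_univ _, (mem_filter.1 hz).2⟩
      · intro z _ z' _ h
        have := Prod.ext_iff.1 h
        exact Prod.ext this.2 this.1
      · intro z hz
        exact ⟨(z.2, z.1), mem_filter.2 ⟨mem_univ _, (mem_filter.1 hz).2⟩, rfl⟩
    have h5 : T ∪ univ.filter (fun z : Fin k × Fin k => z.2 < z.1) =
        (univ : Finset (Fin k)).offDiag := by
      ext z
      rw [mem_union, mem_filter, mem_filter, mem_offDiag]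
      constructor
      · rintro (⟨_, h⟩ | ⟨_, h⟩)
        · exact ⟨mem_univ _, mem_univ _, h.ne⟩
        · exact ⟨mem_univ _, mem_univ _, h.ne'⟩
      · rintro ⟨_, _, h⟩
        rcases lt_or_gt_of_ne h with h6 | h6
        · exact Or.inl ⟨mem_univ _, h6⟩
        · exact Or.inr ⟨mem_univ _, h6⟩
    have h6 : Disjoint T (univ.filter (fun z : Fin k × Fin k => z.2 < z.1)) := by
      rw [Finset.disjoint_left]
      intro z hz hz'
      exact lt_asymm (mem_filter.1 hz).2 (mem_filter.1 hz').2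
    have h7 := card_union_of_disjoint h6
    rw [h5, offDiag_card, card_univ, Fintype.card_fin, ← h4] at h7
    rw [Nat.mul_sub_one]
    omega
  have h4 : B.card * Fintype.card Γ ^ 2 ≤
      (Fintype.card V * Fintype.card X * T.card) * (s ^ 2 * Fintype.card (Fin k → V → Γ)) := by
    have h5 : B.card ≤ ∑ y ∈ (univ : Finset (V × X)) ×ˢ T, (C y.1 y.2).card :=
      (card_le_card h1).trans card_biUnion_le
    have h6 := Nat.mul_le_mul_right (Fintype.card Γ ^ 2) h5
    rw [sum_mul] at h6
    refine h6.trans ((sum_le_sum fun y hy => h2 y.1 y.2 (mem_product.1 hy).2).trans ?_)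
    rw [sum_const, smul_eq_mul, card_product, card_univ, Fintype.card_prod]
  calc 2 * (B.card * Fintype.card Γ ^ 2) ≤ 2 * ((Fintype.card V * Fintype.card X * T.card) *
        (s ^ 2 * Fintype.card (Fin k → V → Γ))) := Nat.mul_le_mul_left _ h4
    _ = (Fintype.card V * Fintype.card X) * (2 * T.card) *
        (s ^ 2 * Fintype.card (Fin k → V → Γ)) := by ring
    _ ≤ _ := Nat.mul_le_mul_right _ (Nat.mul_le_mul_left _ h3)

open Classical in
/-- The number of voltage assignments for which the lift has large linear arboricity. -/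
theorem lift_count {V E Γ X : Type} [Group Γ] [MulAction Γ X] [Fintype V] [Fintype E]
    [Fintype Γ] [Fintype X] (p q : E → V) (k s : ℕ)
    (hdeg : ∀ v, (univ.filter (fun e => p e = v)).card + (univ.filter (fun e => q e = v)).card =
      2 * k)
    (hs : ∀ x : X, (univ.filter (fun γ : Γ => ∃ j, 1 ≤ j ∧ j < 6 * k - 6 ∧
      γ ^ j • x = x)).card ≤ s) :
    2 * ((univ.filter (fun σ : E → Γ => ¬ Cov (lift p q σ : SimpleGraph (V × X)) (k + 1))).card *
      Fintype.card Γ ^ 2) ≤
      (Fintype.card V * Fintype.card X) * (k * (k - 1)) * (s ^ 2 * Fintype.card (E → Γ)) := by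
  obtain ⟨t, π, φ, h⟩ := base_decomp p q k hdeg
  have h1 := bad_count (6 * k - 6) s k hs π
  have h2 : (univ.filter (fun σ : E → Γ => ¬ Cov (lift p q σ : SimpleGraph (V × X))
      (k + 1))).card ≤ (univ.filter (fun g : Fin k → V → Γ => ∃ a : V × X, ∃ i j, i ≠ j ∧
      Sh (6 * k - 6) (skew X (π i) (g i)) a ∧ Sh (6 * k - 6) (skew X (π j) (g j)) a)).card := by
    refine card_le_card_of_injOn (toCoc t φ) ?_ ((toCoc_inj t φ).injOn)
    intro σ hσ
    rw [mem_coe, mem_filter] at hσ
    rw [mem_coe, mem_filter]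
    refine ⟨mem_univ _, ?_⟩
    by_contra hcon
    push Not at hcon
    refine hσ.2 ?_
    rw [lift_eq p q t π φ h σ]
    have h3 := cov_perm (fun i => skew X (π i) (toCoc t φ σ i)) (6 * k - 6)
      (by rw [Fintype.card_fin]; omega) (fun a i j hij hh => hcon a i j hij hh.1 hh.2)
    rwa [Fintype.card_fin] at h3
  have h3 : Fintype.card (E → Γ) = Fintype.card (Fin k → V → Γ) := by
    rw [Fintype.card_fun, Fintype.card_fun, Fintype.card_fun, ← pow_mul]
    congr 1
    rw [Fintype.card_congr φ, Fintype.card_prod, Fintype.card_fin]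
    ring
  rw [h3]
  exact (Nat.mul_le_mul_left _ (Nat.mul_le_mul_right _ h2)).trans h1

end Pool.Agent.W5h10.RL
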