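import Pool.Agent.W111.LAR.Odd
import Pool.Agent.W5h10.RL.Base

set_option autoImplicit false

/-!
Voltage lifts over a finite group acting on itself.
-/

namespace Pool.Agent.W5h10.RL

open Finset SimpleGraph H931R3.LA Pool.Agent.W111.LAR

theorem sh_one {V Γ : Type} [Group Γ] {M : ℕ} {π : Equiv.Perm V} {g : V → Γ} {v : V} {x : Γ}
    (h : Sh M (skew Γ π g) (v, x)) : Sh M (skew Γ π g) (v, (1 : Γ)) := by
  obtain ⟨j, h1, h2, h3⟩ := h
  refine ⟨j, h1, h2, ?_⟩
  rw [skew_pow] at h3 ⊢
  have h4 : (π ^ j) v = v := congrArg Prod.fst h3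
  have h5 : coc π g j v • x = x := congrArg Prod.snd h3
  rw [smul_eq_mul] at h5
  have h6 : coc π g j v = 1 := by
    have := congrArg (fun y => y * x⁻¹) h5
    simpa using this
  rw [h4, h6, one_smul]

open Classical in
/-- Short cycles through `(v, 1)`: the number of cocycles. -/
theorem sh_count_one {V Γ : Type} [Group Γ] [Fintype V] [Fintype Γ] (M : ℕ) (π : Equiv.Perm V)
    (v : V) :
    (univ.filter (fun g : V → Γ => Sh M (skew Γ π g) (v, (1 : Γ)))).card * Fintype.card Γ ≤
      (univ.filter (fun γ : Γ => orderOf γ < M)).card * Fintype.card (V → Γ) := by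
  refine sh_count M _ (fun x => ?_) π v 1
  refine card_le_card ?_
  intro γ hγ
  obtain ⟨_, j, h1, h2, h3⟩ := mem_filter.1 hγ
  refine mem_filter.2 ⟨mem_univ _, ?_⟩
  rw [smul_eq_mul] at h3
  have h4 : γ ^ j = 1 := by
    have := congrArg (fun y => y * x⁻¹) h3
    simpa using this
  exact lt_of_le_of_lt (orderOf_le_of_pow_eq_one h1 h4) h2

open Classical in
theorem bad_count_one {V Γ : Type} [Group Γ] [Fintype V] [Fintype Γ] (M k : ℕ)
    (π : Fin k → Equiv.Perm V) :
    2 * ((univ.filter (fun g : Fin k → V → Γ => ∃ a : V × Γ, ∃ i j, i ≠ j ∧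
      Sh M (skew Γ (π i) (g i)) a ∧ Sh M (skew Γ (π j) (g j)) a)).card * Fintype.card Γ ^ 2) ≤
      Fintype.card V * (k * (k - 1)) * ((univ.filter (fun γ : Γ => orderOf γ < M)).card ^ 2 *
        Fintype.card (Fin k → V → Γ)) := by
  set s := (univ.filter (fun γ : Γ => orderOf γ < M)).card with hs
  set B := univ.filter (fun g : Fin k → V → Γ => ∃ a : V × Γ, ∃ i j, i ≠ j ∧
      Sh M (skew Γ (π i) (g i)) a ∧ Sh M (skew Γ (π j) (g j)) a) with hB
  set T : Finset (Fin k × Fin k) := univ.filter (fun z => z.1 < z.2) with hT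
  set C : V → Fin k × Fin k → Finset (Fin k → V → Γ) := fun v z =>
    univ.filter (fun g => g z.1 ∈ univ.filter (fun g : V → Γ =>
        Sh M (skew Γ (π z.1) g) (v, (1 : Γ))) ∧
      g z.2 ∈ univ.filter (fun g : V → Γ => Sh M (skew Γ (π z.2) g) (v, (1 : Γ)))) with hC
  have h1 : B ⊆ (univ ×ˢ T).biUnion (fun y => C y.1 y.2) := by
    intro g hg
    obtain ⟨_, ⟨v, x⟩, i, j, hij, h2, h3⟩ := mem_filter.1 hg
    have h2' := sh_one h2
    have h3' := sh_one h3
    rw [mem_biUnion]
    rcases lt_or_gt_of_ne hij with h4 | h4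
    · refine ⟨(v, (i, j)), mem_product.2 ⟨mem_univ _, mem_filter.2 ⟨mem_univ _, h4⟩⟩, ?_⟩
      exact mem_filter.2 ⟨mem_univ _, mem_filter.2 ⟨mem_univ _, h2'⟩,
        mem_filter.2 ⟨mem_univ _, h3'⟩⟩
    · refine ⟨(v, (j, i)), mem_product.2 ⟨mem_univ _, mem_filter.2 ⟨mem_univ _, h4⟩⟩, ?_⟩
      exact mem_filter.2 ⟨mem_univ _, mem_filter.2 ⟨mem_univ _, h3'⟩,
        mem_filter.2 ⟨mem_univ _, h2'⟩⟩
  have h2 : ∀ v, ∀ z ∈ T, (C v z).card * Fintype.card Γ ^ 2 ≤
      s ^ 2 * Fintype.card (Fin k → V → Γ) := by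
    intro v z hz
    have hne : z.1 ≠ z.2 := (mem_filter.1 hz).2.ne
    have h3 := two_coord (univ.filter (fun g : V → Γ => Sh M (skew Γ (π z.1) g) (v, (1 : Γ))))
      (univ.filter (fun g : V → Γ => Sh M (skew Γ (π z.2) g) (v, (1 : Γ)))) z.1 z.2 hne
    have h4 := sh_count_one (Γ := Γ) M (π z.1) v
    have h5 := sh_count_one (Γ := Γ) M (π z.2) v
    have hpos : 0 < Fintype.card (V → Γ) := Fintype.card_pos
    have h6 : ((C v z).card * Fintype.card Γ ^ 2) * Fintype.card (V → Γ) ^ 2 ≤
        (s ^ 2 * Fintype.card (Fin k → V → Γ)) * Fintype.card (V → Γ) ^ 2 := by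
      calc ((C v z).card * Fintype.card Γ ^ 2) * Fintype.card (V → Γ) ^ 2
          = ((C v z).card * Fintype.card (V → Γ) ^ 2) * Fintype.card Γ ^ 2 := by ring
        _ = ((univ.filter (fun g : V → Γ => Sh M (skew Γ (π z.1) g) (v, (1 : Γ)))).card *
            (univ.filter (fun g : V → Γ => Sh M (skew Γ (π z.2) g) (v, (1 : Γ)))).card *
            Fintype.card (Fin k → V → Γ)) * Fintype.card Γ ^ 2 := by rw [← h3]
        _ = (((univ.filter (fun g : V → Γ => Sh M (skew Γ (π z.1) g) (v, (1 : Γ)))).card *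
            Fintype.card Γ) *
            ((univ.filter (fun g : V → Γ => Sh M (skew Γ (π z.2) g) (v, (1 : Γ)))).card *
              Fintype.card Γ)) * Fintype.card (Fin k → V → Γ) := by ring
        _ ≤ ((s * Fintype.card (V → Γ)) * (s * Fintype.card (V → Γ))) *
            Fintype.card (Fin k → V → Γ) :=
            Nat.mul_le_mul_right _ (Nat.mul_le_mul h4 h5)
        _ = _ := by ring
    exact Nat.le_of_mul_le_mul_right h6 (pow_pos hpos 2)
  have h3 : 2 * T.card ≤ k * (k - 1) := by
    have h4 : T.card = (univ.filter (fun z : Fin k × Fin k => z.2 < z.1)).card := by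
      refine card_bij (fun z _ => (z.2, z.1)) ?_ ?_ ?_
      · intro z hz
        exact mem_filter.2 ⟨mem_univ _, (mem_filter.1 hz).2⟩
      · intro z _ z' _ h
        have := Prod.ext_iff.1 h
        exact Prod.ext this.2 this.1
      · intro z hz
        exact ⟨(z.2, z.1), mem_filter.2 ⟨mem_univ _, (mem_filter.1 hz).2⟩, rfl⟩
    have h5 : T ∪ univ.filter (fun z : Fin k × Fin k => z.2 < z.1) =
        (univ : Finset (Fin k)).offDiag := by
      ext z
      rw [mem_union, mem_filter, mem_filter, mem_offDiag]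
      constructor
      · rintro (⟨_, h⟩ | ⟨_, h⟩)
        · exact ⟨mem_univ _, mem_univ _, h.ne⟩
        · exact ⟨mem_univ _, mem_univ _, h.ne'⟩
      · rintro ⟨_, _, h⟩
        rcases lt_or_gt_of_ne h with h6 | h6
        · exact Or.inl ⟨mem_univ _, h6⟩
        · exact Or.inr ⟨mem_univ _, h6⟩
    have h6 : Disjoint T (univ.filter (fun z : Fin k × Fin k => z.2 < z.1)) := by
      rw [Finset.disjoint_left]
      intro z hz hz'
      exact lt_asymm (mem_filter.1 hz).2 (mem_filter.1 hz').2
    have h7 := card_union_of_disjoint h6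
    rw [h5, offDiag_card, card_univ, Fintype.card_fin, ← h4] at h7
    rw [Nat.mul_sub_one]
    omega
  have h4 : B.card * Fintype.card Γ ^ 2 ≤
      (Fintype.card V * T.card) * (s ^ 2 * Fintype.card (Fin k → V → Γ)) := by
    have h5 : B.card ≤ ∑ y ∈ (univ : Finset V) ×ˢ T, (C y.1 y.2).card :=
      (card_le_card h1).trans card_biUnion_le
    have h6 := Nat.mul_le_mul_right (Fintype.card Γ ^ 2) h5
    rw [sum_mul] at h6
    refine h6.trans ((sum_le_sum fun y hy => h2 y.1 y.2 (mem_product.1 hy).2).trans ?_)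
    rw [sum_const, smul_eq_mul, card_product, card_univ]
  calc 2 * (B.card * Fintype.card Γ ^ 2) ≤ 2 * ((Fintype.card V * T.card) *
        (s ^ 2 * Fintype.card (Fin k → V → Γ))) := Nat.mul_le_mul_left _ h4
    _ = Fintype.card V * (2 * T.card) * (s ^ 2 * Fintype.card (Fin k → V → Γ)) := by ring
    _ ≤ _ := Nat.mul_le_mul_right _ (Nat.mul_le_mul_left _ h3)

open Classical in
theorem volt_even {V E Γ : Type} [Group Γ] [Fintype V] [Fintype E] [Fintype Γ] (p q : E → V)
    (k : ℕ)
    (hdeg : ∀ v, (univ.filter (fun e => p e = v)).card + (univ.filter (fun e => q e = v)).card =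
      2 * k) :
    2 * ((univ.filter (fun σ : E → Γ => ¬ Cov (lift p q σ : SimpleGraph (V × Γ)) (k + 1))).card *
      Fintype.card Γ ^ 2) ≤
      Fintype.card V * (k * (k - 1)) *
        ((univ.filter (fun γ : Γ => orderOf γ < 6 * k - 6)).card ^ 2 *
        Fintype.card (E → Γ)) := by
  obtain ⟨t, π, φ, h⟩ := base_decomp p q k hdeg
  have h1 := bad_count_one (Γ := Γ) (6 * k - 6) k π
  have h2 : (univ.filter (fun σ : E → Γ => ¬ Cov (lift p q σ : SimpleGraph (V × Γ))
      (k + 1))).card ≤ (univ.filter (fun g : Fin k → V → Γ => ∃ a : V × Γ, ∃ i j, i ≠ j ∧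
      Sh (6 * k - 6) (skew Γ (π i) (g i)) a ∧ Sh (6 * k - 6) (skew Γ (π j) (g j)) a)).card := by
    refine card_le_card_of_injOn (toCoc t φ) ?_ ((toCoc_inj t φ).injOn)
    intro σ hσ
    rw [mem_coe, mem_filter] at hσ
    rw [mem_coe, mem_filter]
    refine ⟨mem_univ _, ?_⟩
    by_contra hcon
    push Not at hcon
    refine hσ.2 ?_
    rw [lift_eq p q t π φ h σ]
    have h3 := cov_perm (fun i => skew Γ (π i) (toCoc t φ σ i)) (6 * k - 6)
      (by rw [Fintype.card_fin]; omega) (fun a i j hij hh => hcon a i j hij hh.1 hh.2)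
    rwa [Fintype.card_fin] at h3
  have h3 : Fintype.card (E → Γ) = Fintype.card (Fin k → V → Γ) := by
    rw [Fintype.card_fun, Fintype.card_fun, Fintype.card_fun, ← pow_mul]
    congr 1
    rw [Fintype.card_congr φ, Fintype.card_prod, Fintype.card_fin]
    ring
  rw [h3]
  exact (Nat.mul_le_mul_left _ (Nat.mul_le_mul_right _ h2)).trans h1

/-- One coordinate. -/
theorem one_coord {κ A : Type} [Fintype κ] [DecidableEq κ] [Fintype A] [DecidableEq A]
    (P : Finset A) (i : κ) :
    (univ.filter (fun g : κ → A => g i ∈ P)).card * Fintype.card A =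
      P.card * Fintype.card (κ → A) := by
  have h1 : univ.filter (fun g : κ → A => g i ∈ P) =
      Fintype.piFinset (fun l => if l = i then P else univ) := by
    ext g
    rw [mem_filter, Fintype.mem_piFinset]
    constructor
    · rintro ⟨_, h2⟩ l
      split_ifs with h4
      · rw [h4]; exact h2
      · exact mem_univ _
    · intro h
      have h2 := h i
      rw [if_pos rfl] at h2
      exact ⟨mem_univ _, h2⟩
  rw [h1, Fintype.card_piFinset, Fintype.card_fun]
  have h2 : ∏ l : κ, (if l = i then P else univ).card =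
      P.card * ∏ l ∈ univ.erase i, Fintype.card A := by
    rw [← mul_prod_erase univ _ (mem_univ i), if_pos rfl]
    congr 1
    refine prod_congr rfl fun l hl => ?_
    rw [if_neg (mem_erase.1 hl).1, card_univ]
  rw [h2, prod_const, card_erase_of_mem (mem_univ i), card_univ]
  have h3 : 1 ≤ Fintype.card κ := Fintype.card_pos_iff.2 ⟨i⟩
  have h4 : Fintype.card κ = (Fintype.card κ - 1) + 1 := by omega
  conv_rhs => rw [h4, pow_succ]
  ring

open Classical in
theorem volt_odd {V E Γ : Type} [Group Γ] [Fintype V] [Fintype E] [Fintype Γ] (p q : E → V)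
    (k : ℕ) (F : Set E)
    (hF : ∀ v, (univ.filter (fun e => e ∈ F ∧ p e = v)).card +
      (univ.filter (fun e => e ∈ F ∧ q e = v)).card = 1)
    (hdeg : ∀ v, (univ.filter (fun e => p e = v)).card + (univ.filter (fun e => q e = v)).card =
      2 * k + 1) :
    (univ.filter (fun σ : E → Γ => ¬ Cov (lift p q σ : SimpleGraph (V × Γ)) (k + 1))).card *
      Fintype.card Γ ≤
      Fintype.card V * k * (univ.filter (fun γ : Γ => orderOf γ < 12 * k - 8)).card *
        Fintype.card (E → Γ) := by
  set s := (univ.filter (fun γ : Γ => orderOf γ < 12 * k - 8)).card with hs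
  let E' : Type := {e : E // e ∉ F}
  let p' : E' → V := fun e => p e.1
  let q' : E' → V := fun e => q e.1
  have hsub : ∀ (f : E → V) (v : V), (univ.filter (fun e : E' => f e.1 = v)).card +
      (univ.filter (fun e => e ∈ F ∧ f e = v)).card = (univ.filter (fun e => f e = v)).card := by
    intro f v
    have h1 : (univ.filter (fun e : E' => f e.1 = v)).card =
        (univ.filter (fun e => e ∉ F ∧ f e = v)).card := by
      refine card_bij (fun e _ => e.1) ?_ ?_ ?_
      · intro e he
        exact mem_filter.2 ⟨mem_univ _, e.2, (mem_filter.1 he).2⟩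
      · intro e _ e' _ h
        exact Subtype.ext h
      · intro e he
        obtain ⟨_, h2, h3⟩ := mem_filter.1 he
        exact ⟨⟨e, h2⟩, mem_filter.2 ⟨mem_univ _, h3⟩, rfl⟩
    rw [h1, ← card_union_of_disjoint]
    · congr 1
      ext e
      simp only [mem_union, mem_filter, mem_univ, true_and]
      tauto
    · rw [Finset.disjoint_left]
      intro e he he'
      exact (mem_filter.1 he).2.1 (mem_filter.1 he').2.1
  have hdeg' : ∀ v, (univ.filter (fun e : E' => p' e = v)).card +
      (univ.filter (fun e : E' => q' e = v)).card = 2 * k := by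
    intro v
    have h1 := hsub p v
    have h2 := hsub q v
    have h3 := hF v
    have h4 := hdeg v
    have h5 : (univ.filter (fun e : E' => p' e = v)).card =
      (univ.filter (fun e : E' => p e.1 = v)).card := rfl
    have h6 : (univ.filter (fun e : E' => q' e = v)).card =
      (univ.filter (fun e : E' => q e.1 = v)).card := rfl
    omega
  obtain ⟨t, π, φ, h⟩ := base_decomp p' q' k hdeg'
  let res : (E → Γ) → (E' → Γ) := fun σ e => σ e.1
  let P : (E → Γ) → SimpleGraph (V × Γ) := fun σ =>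
    lift (fun e : {e : E // e ∈ F} => p e.1) (fun e => q e.1) (fun e => σ e.1)
  -- the matching
  have hPdeg : ∀ σ a, ((P σ).neighborSet a).ncard ≤ 1 := by
    intro σ a
    rw [Set.ncard_le_one (Set.toFinite _)]
    have huniq : ∀ (e e' : E), e ∈ F → e' ∈ F → (p e = a.1 ∨ q e = a.1) →
        (p e' = a.1 ∨ q e' = a.1) → e = e' ∧ ¬ (p e = a.1 ∧ q e = a.1) := by
      intro e e' he he' h1 h2
      have h3 := hF a.1
      have hmem : ∀ e, e ∈ F → p e = a.1 → e ∈ univ.filter (fun e => e ∈ F ∧ p e = a.1) :=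
        fun e h4 h5 => mem_filter.2 ⟨mem_univ _, h4, h5⟩
      have hmem' : ∀ e, e ∈ F → q e = a.1 → e ∈ univ.filter (fun e => e ∈ F ∧ q e = a.1) :=
        fun e h4 h5 => mem_filter.2 ⟨mem_univ _, h4, h5⟩
      have hnot : ∀ e e', e ∈ F → e' ∈ F → p e = a.1 → ¬ q e' = a.1 := by
        intro e e' h4 h5 h6 h7
        have h8 := card_pos.2 ⟨e, hmem e h4 h6⟩
        have h9 := card_pos.2 ⟨e', hmem' e' h5 h7⟩
        omega
      refine ⟨?_, fun h4 => hnot e e he he h4.1 h4.2⟩
      rcases h1 with h1 | h1 <;> rcases h2 with h2 | h2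
      · by_contra hne
        have h4 : 2 ≤ (univ.filter (fun e => e ∈ F ∧ p e = a.1)).card := by
          rw [← card_pair hne]
          refine card_le_card ?_
          intro x hx
          rcases mem_insert.1 hx with rfl | hx
          · exact hmem _ he h1
          · rw [mem_singleton.1 hx]
            exact hmem _ he' h2
        omega
      · exact absurd h2 (hnot e e' he he' h1)
      · exact absurd h1 (hnot e' e he' he h2)
      · by_contra hne
        have h4 : 2 ≤ (univ.filter (fun e => e ∈ F ∧ q e = a.1)).card := by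
          rw [← card_pair hne]
          refine card_le_card ?_
          intro x hx
          rcases mem_insert.1 hx with rfl | hx
          · exact hmem' _ he h1
          · rw [mem_singleton.1 hx]
            exact hmem' _ he' h2
        omega
    rintro b ⟨_, e, hb⟩ c ⟨_, e', hc⟩
    have hb' : p e.1 = a.1 ∨ q e.1 = a.1 := by
      rcases hb with hb | hb
      · exact Or.inl hb.1
      · exact Or.inr hb.2.1
    have hc' : p e'.1 = a.1 ∨ q e'.1 = a.1 := by
      rcases hc with hc | hc
      · exact Or.inl hc.1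
      · exact Or.inr hc.2.1
    obtain ⟨h1, h2⟩ := huniq e.1 e'.1 e.2 e'.2 hb' hc'
    have h3 : e = e' := Subtype.ext h1
    subst h3
    rcases hb with ⟨b1, b2, b3⟩ | ⟨b1, b2, b3⟩ <;> rcases hc with ⟨c1, c2, c3⟩ | ⟨c1, c2, c3⟩
    · exact Prod.ext (b2.symm.trans c2) (b3.symm.trans c3)
    · exact absurd ⟨b1, c2⟩ h2
    · exact absurd ⟨c1, b2⟩ h2
    · refine Prod.ext (b1.symm.trans c1) ?_
      have h4 : σ e.1 • b.2 = σ e.1 • c.2 := b3.trans c3.symm
      exact MulAction.injective _ h4
  -- failing assignments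
  have hfail : ∀ σ : E → Γ, ¬ Cov (lift p q σ : SimpleGraph (V × Γ)) (k + 1) →
      ∃ v i, Sh (12 * k - 8) (skew Γ (π i) (toCoc t φ (res σ) i)) (v, (1 : Γ)) := by
    intro σ hσ
    by_contra hcon
    push Not at hcon
    refine hσ ?_
    have h1 := cov_matching (fun i => pg (skew Γ (π i) (toCoc t φ (res σ) i))) (P σ)
      (fun i v => pg_deg _ v) (hPdeg σ) (12 * k - 8) (by rw [Fintype.card_fin]; omega)
      (fun i a _ => pg_size (fun hs => hcon a.1 i (sh_one (x := a.2) hs)))
    rw [← lift_eq p' q' t π φ h (res σ), Fintype.card_fin] at h1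
    have h2 : P σ ⊔ lift p' q' (res σ) = (lift p q σ : SimpleGraph (V × Γ)) := by
      ext a b
      rw [sup_adj]
      constructor
      · rintro (⟨h3, e, h4⟩ | ⟨h3, e, h4⟩)
        · exact ⟨h3, e.1, h4⟩
        · exact ⟨h3, e.1, h4⟩
      · rintro ⟨h3, e, h4⟩
        by_cases he : e ∈ F
        · exact Or.inl ⟨h3, ⟨e, he⟩, h4⟩
        · exact Or.inr ⟨h3, ⟨e, he⟩, h4⟩
    rwa [h2] at h1
  -- counting
  let Φ : (E → Γ) → (Fin k → V → Γ) × ({e : E // e ∈ F} → Γ) := fun σ =>
    (toCoc t φ (res σ), fun e => σ e.1)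
  have hΦ : Function.Injective Φ := by
    intro σ τ hστ
    have h1 := toCoc_inj t φ (congrArg Prod.fst hστ)
    have h2 := congrArg Prod.snd hστ
    funext e
    by_cases he : e ∈ F
    · exact congrFun h2 ⟨e, he⟩
    · exact congrFun h1 ⟨e, he⟩
  let A : V → Fin k → Finset (Fin k → V → Γ) := fun v i =>
    univ.filter (fun g => g i ∈ univ.filter (fun g : V → Γ =>
      Sh (12 * k - 8) (skew Γ (π i) g) (v, (1 : Γ))))
  have hA : ∀ v i, (A v i).card * Fintype.card Γ ≤ s * Fintype.card (Fin k → V → Γ) := by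
    intro v i
    have h1 := one_coord (univ.filter (fun g : V → Γ =>
      Sh (12 * k - 8) (skew Γ (π i) g) (v, (1 : Γ)))) i
    have h2 := sh_count_one (Γ := Γ) (12 * k - 8) (π i) v
    have hpos : 0 < Fintype.card (V → Γ) := Fintype.card_pos
    refine Nat.le_of_mul_le_mul_right (c := Fintype.card (V → Γ)) ?_ hpos
    calc (A v i).card * Fintype.card Γ * Fintype.card (V → Γ)
        = ((A v i).card * Fintype.card (V → Γ)) * Fintype.card Γ := by ring
      _ = ((univ.filter (fun g : V → Γ =>
          Sh (12 * k - 8) (skew Γ (π i) g) (v, (1 : Γ)))).card *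
          Fintype.card (Fin k → V → Γ)) * Fintype.card Γ := by rw [← h1]
      _ = ((univ.filter (fun g : V → Γ =>
          Sh (12 * k - 8) (skew Γ (π i) g) (v, (1 : Γ)))).card * Fintype.card Γ) *
          Fintype.card (Fin k → V → Γ) := by ring
      _ ≤ (s * Fintype.card (V → Γ)) * Fintype.card (Fin k → V → Γ) :=
          Nat.mul_le_mul_right _ h2
      _ = _ := by ring
  have hcount : (univ.filter (fun σ : E → Γ => ¬ Cov (lift p q σ : SimpleGraph (V × Γ))
      (k + 1))).card ≤ (((univ : Finset (V × Fin k)).biUnion (fun z => A z.1 z.2)) ×ˢ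
      (univ : Finset ({e : E // e ∈ F} → Γ))).card := by
    refine card_le_card_of_injOn Φ ?_ hΦ.injOn
    intro σ hσ
    rw [mem_coe, mem_filter] at hσ
    obtain ⟨v, i, hvi⟩ := hfail σ hσ.2
    rw [mem_coe, mem_product]
    refine ⟨mem_biUnion.2 ⟨(v, i), mem_univ _, ?_⟩, mem_univ _⟩
    exact mem_filter.2 ⟨mem_univ _, mem_filter.2 ⟨mem_univ _, hvi⟩⟩
  have htot : Fintype.card (E → Γ) = Fintype.card (Fin k → V → Γ) *
      Fintype.card ({e : E // e ∈ F} → Γ) := by
    rw [Fintype.card_fun, Fintype.card_fun, Fintype.card_fun, Fintype.card_fun, ← pow_mul,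
      ← pow_add]
    congr 1
    have h1 : Fintype.card E' = Fintype.card V * k := by
      rw [Fintype.card_congr φ, Fintype.card_prod, Fintype.card_fin, mul_comm]
    rw [Fintype.card_fin, ← h1]
    have h2 := Fintype.card_subtype_compl (fun e : E => e ∈ F)
    have h3 := Fintype.card_subtype_le (fun e : E => e ∈ F)
    have h4 : Fintype.card E' = Fintype.card {e : E // ¬ e ∈ F} := rfl
    omega
  have hU : ((univ : Finset (V × Fin k)).biUnion (fun z => A z.1 z.2)).card * Fintype.card Γ ≤
      (Fintype.card V * k) * (s * Fintype.card (Fin k → V → Γ)) := by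
    refine (Nat.mul_le_mul_right _ card_biUnion_le).trans ?_
    rw [sum_mul]
    refine (sum_le_sum fun z _ => hA z.1 z.2).trans ?_
    rw [sum_const, smul_eq_mul, card_univ, Fintype.card_prod, Fintype.card_fin]
  rw [card_product, card_univ] at hcount
  calc _ ≤ (((univ : Finset (V × Fin k)).biUnion (fun z => A z.1 z.2)).card *
        Fintype.card ({e : E // e ∈ F} → Γ)) * Fintype.card Γ := Nat.mul_le_mul_right _ hcount
    _ = (((univ : Finset (V × Fin k)).biUnion (fun z => A z.1 z.2)).card * Fintype.card Γ) *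
        Fintype.card ({e : E // e ∈ F} → Γ) := by ring
    _ ≤ ((Fintype.card V * k) * (s * Fintype.card (Fin k → V → Γ))) *
        Fintype.card ({e : E // e ∈ F} → Γ) := Nat.mul_le_mul_right _ hU
    _ = _ := by rw [htot]; ring

theorem volt_even' {V E Γ : Type} [Group Γ] [Finite V] [Finite E] [Finite Γ] (p q : E → V)
    (k : ℕ) (hdeg : ∀ v, {e | p e = v}.ncard + {e | q e = v}.ncard = 2 * k) :
    2 * Nat.card Γ ^ 2 * {σ : E → Γ | k + 1 < la (lift p q σ : SimpleGraph (V × Γ))}.ncard ≤
      k * (k - 1) * {γ : Γ | orderOf γ < 6 * k - 6}.ncard ^ 2 * Nat.card V *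
        Nat.card Γ ^ Nat.card E := by
  classical
  have := Fintype.ofFinite V
  have := Fintype.ofFinite E
  have := Fintype.ofFinite Γ
  have h1 := volt_even (Γ := Γ) p q k (fun v => by
    have := hdeg v
    rw [Set.ncard_eq_toFinset_card', Set.ncard_eq_toFinset_card', Set.toFinset_ofPred,
      Set.toFinset_ofPred] at this
    exact this)
  have h2 : {σ : E → Γ | k + 1 < la (lift p q σ : SimpleGraph (V × Γ))}.ncard =
      (Finset.univ.filter (fun σ : E → Γ => ¬ Cov (lift p q σ : SimpleGraph (V × Γ))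
        (k + 1))).card := by
    rw [Set.ncard_eq_toFinset_card', Set.toFinset_ofPred]
    congr 1
    ext σ
    simp only [Finset.mem_filter, Finset.mem_univ, true_and]
    rw [← la_le_iff, not_le]
  have h3 : {γ : Γ | orderOf γ < 6 * k - 6}.ncard =
      (Finset.univ.filter (fun γ : Γ => orderOf γ < 6 * k - 6)).card := by
    rw [Set.ncard_eq_toFinset_card', Set.toFinset_ofPred]
  rw [h2, h3, Nat.card_eq_fintype_card, Nat.card_eq_fintype_card, Nat.card_eq_fintype_card,
    ← Fintype.card_fun]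
  calc _ = 2 * ((Finset.univ.filter (fun σ : E → Γ => ¬ Cov (lift p q σ : SimpleGraph (V × Γ))
        (k + 1))).card * Fintype.card Γ ^ 2) := by ring
    _ ≤ _ := h1
    _ = _ := by ring

theorem volt_odd' {V E Γ : Type} [Group Γ] [Finite V] [Finite E] [Finite Γ] (p q : E → V)
    (k : ℕ) (F : Set E)
    (hF : ∀ v, {e | e ∈ F ∧ p e = v}.ncard + {e | e ∈ F ∧ q e = v}.ncard = 1)
    (hdeg : ∀ v, {e | p e = v}.ncard + {e | q e = v}.ncard = 2 * k + 1) :
    Nat.card Γ * {σ : E → Γ | k + 1 < la (lift p q σ : SimpleGraph (V × Γ))}.ncard ≤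
      k * {γ : Γ | orderOf γ < 12 * k - 8}.ncard * Nat.card V * Nat.card Γ ^ Nat.card E := by
  classical
  have := Fintype.ofFinite V
  have := Fintype.ofFinite E
  have := Fintype.ofFinite Γ
  have h1 := volt_odd (Γ := Γ) p q k F (fun v => by
    have := hF v
    rw [Set.ncard_eq_toFinset_card', Set.ncard_eq_toFinset_card', Set.toFinset_ofPred,
      Set.toFinset_ofPred] at this
    exact this) (fun v => by
    have := hdeg v
    rw [Set.ncard_eq_toFinset_card', Set.ncard_eq_toFinset_card', Set.toFinset_ofPred,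
      Set.toFinset_ofPred] at this
    exact this)
  have h2 : {σ : E → Γ | k + 1 < la (lift p q σ : SimpleGraph (V × Γ))}.ncard =
      (Finset.univ.filter (fun σ : E → Γ => ¬ Cov (lift p q σ : SimpleGraph (V × Γ))
        (k + 1))).card := by
    rw [Set.ncard_eq_toFinset_card', Set.toFinset_ofPred]
    congr 1
    ext σ
    simp only [Finset.mem_filter, Finset.mem_univ, true_and]
    rw [← la_le_iff, not_le]
  have h3 : {γ : Γ | orderOf γ < 12 * k - 8}.ncard =
      (Finset.univ.filter (fun γ : Γ => orderOf γ < 12 * k - 8)).card := by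
    rw [Set.ncard_eq_toFinset_card', Set.toFinset_ofPred]
  rw [h2, h3, Nat.card_eq_fintype_card, Nat.card_eq_fintype_card, Nat.card_eq_fintype_card,
    ← Fintype.card_fun]
  calc _ = (Finset.univ.filter (fun σ : E → Γ => ¬ Cov (lift p q σ : SimpleGraph (V × Γ))
        (k + 1))).card * Fintype.card Γ := by ring
    _ ≤ _ := h1
    _ = _ := by ring

end Pool.Agent.W5h10.RL
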