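import Pool.Agent.W5h10.RL.Base

set_option autoImplicit false

/-!
Lifts of `2 k`-regular multigraphs: statements with `Set.ncard`.
-/

namespace Pool.Agent.W5h10.RL

open SimpleGraph H931R3.LA Pool.Agent.W111.LAR

theorem even_general {V E : Type} [Finite V] [Finite E] (p q : E → V) (k : ℕ)
    (hdeg : ∀ v, {e | p e = v}.ncard + {e | q e = v}.ncard = 2 * k)
    (Γ X : Type) [Group Γ] [Finite Γ] [Finite X] [MulAction Γ X] (s : ℕ)
    (hs : ∀ x : X, {γ : Γ | ∃ j, 1 ≤ j ∧ j < 6 * k - 6 ∧ γ ^ j • x = x}.ncard ≤ s) :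
    2 * {σ : E → Γ | k + 1 < la (lift p q σ : SimpleGraph (V × X))}.ncard * Nat.card Γ ^ 2 ≤
      k * (k - 1) * s ^ 2 * Nat.card V * Nat.card X * Nat.card (E → Γ) := by
  classical
  have := Fintype.ofFinite V
  have := Fintype.ofFinite E
  have := Fintype.ofFinite Γ
  have := Fintype.ofFinite X
  have h1 := lift_count (Γ := Γ) (X := X) p q k s (fun v => by
    have := hdeg v
    rw [Set.ncard_eq_toFinset_card', Set.ncard_eq_toFinset_card', Set.toFinset_ofPred,
      Set.toFinset_ofPred] at this
    exact this) (fun x => by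
    have := hs x
    rw [Set.ncard_eq_toFinset_card', Set.toFinset_ofPred] at this
    exact this)
  have h2 : {σ : E → Γ | k + 1 < la (lift p q σ : SimpleGraph (V × X))}.ncard =
      (Finset.univ.filter (fun σ : E → Γ => ¬ Cov (lift p q σ : SimpleGraph (V × X))
        (k + 1))).card := by
    rw [Set.ncard_eq_toFinset_card', Set.toFinset_ofPred]
    congr 1
    ext σ
    simp only [Finset.mem_filter, Finset.mem_univ, true_and]
    rw [← la_le_iff, not_le]
  rw [h2, Nat.card_eq_fintype_card, Nat.card_eq_fintype_card, Nat.card_eq_fintype_card,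
    Nat.card_eq_fintype_card]
  calc _ = 2 * ((Finset.univ.filter (fun σ : E → Γ => ¬ Cov (lift p q σ : SimpleGraph (V × X))
        (k + 1))).card * Fintype.card Γ ^ 2) := by ring
    _ ≤ _ := h1
    _ = _ := by ring

theorem even_perm {V E : Type} [Finite V] [Finite E] (p q : E → V) (k : ℕ)
    (hdeg : ∀ v, {e | p e = v}.ncard + {e | q e = v}.ncard = 2 * k) (n : ℕ) (hn : 0 < n) :
    2 * n * {σ : E → Equiv.Perm (Fin n) | k + 1 < la (lift p q σ :
      SimpleGraph (V × Fin n))}.ncard ≤
      k * (k - 1) * (6 * k - 7) ^ 2 * Nat.card V * n.factorial ^ Nat.card E := by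
  classical
  have : Nonempty (Fin n) := ⟨⟨0, hn⟩⟩
  have h1 := even_general p q k hdeg (Equiv.Perm (Fin n)) (Fin n)
    ((6 * k - 6 - 1) * (n - 1).factorial) (fun x => by
      have h2 := ret_card x (6 * k - 6)
      rw [Fintype.card_fin] at h2
      rw [Set.ncard_eq_toFinset_card', Set.toFinset_ofPred]
      convert h2 using 2
      ext γ
      simp only [Finset.mem_filter, Finset.mem_univ, true_and, Equiv.Perm.smul_def])
  have hfun : Nat.card (E → Equiv.Perm (Fin n)) = n.factorial ^ Nat.card E := by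
    rw [Nat.card_fun]
    congr 1
    rw [Nat.card_eq_fintype_card, Fintype.card_perm, Fintype.card_fin]
  have hperm : Nat.card (Equiv.Perm (Fin n)) = n * (n - 1).factorial := by
    rw [Nat.card_eq_fintype_card, Fintype.card_perm, Fintype.card_fin,
      Nat.mul_factorial_pred (by omega)]
  rw [hfun, hperm, Nat.card_eq_fintype_card (α := Fin n), Fintype.card_fin] at h1
  have h3 : 6 * k - 6 - 1 = 6 * k - 7 := by omega
  rw [h3] at h1
  have hpos : 0 < (n - 1).factorial ^ 2 * n := by positivity
  refine Nat.le_of_mul_le_mul_right (c := (n - 1).factorial ^ 2 * n) ?_ hpos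
  calc _ = 2 * {σ : E → Equiv.Perm (Fin n) | k + 1 < la (lift p q σ :
      SimpleGraph (V × Fin n))}.ncard * (n * (n - 1).factorial) ^ 2 := by ring
    _ ≤ _ := h1
    _ = _ := by ring

end Pool.Agent.W5h10.RL
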