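import Pool.Agent.W5h10.RL.HaarPair
import Pool.Agent.W5h10.RL.Pg
import Pool.Agent.TH486.LAC.Lift

set_option autoImplicit false

/-!
Graphs with a semiregular cyclic group of automorphisms whose quotient is a union of even cycles and
single edges.
-/

namespace Pool.Agent.W5h10.RL

open Finset SimpleGraph H931R3.LA Pool.Agent.W111.LAR Pool.Agent.TH486.LAC

/-- The permutation `(i, x) ↦ (β i, x + u i)` of `ι × ZMod n`. -/
def lay {ι : Type} (n : ℕ) (β : ι → ι) (hβ : ∀ i, β (β i) = i) (u : ι → ZMod n) :
    Equiv.Perm (ι × ZMod n) where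
  toFun a := (β a.1, a.2 + u a.1)
  invFun a := (β a.1, a.2 - u (β a.1))
  left_inv a := by ext <;> simp [hβ]
  right_inv a := by ext <;> simp [hβ]

theorem lay_apply {ι : Type} (n : ℕ) (β : ι → ι) (hβ : ∀ i, β (β i) = i) (u : ι → ZMod n)
    (i : ι) (x : ZMod n) : lay n β hβ u (i, x) = (β i, x + u i) := rfl

theorem lay_pow {ι : Type} (n : ℕ) (β : ι → ι) (hβ : ∀ i, β (β i) = i) (u : ι → ZMod n)
    (t : ℕ) (i : ι) (x : ZMod n) :
    (lay n β hβ u ^ (2 * t)) (i, x) = (i, x + t • (u i + u (β i))) := by
  induction t with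
  | zero => simp
  | succ t ih =>
    have h1 : 2 * (t + 1) = 2 + 2 * t := by ring
    rw [h1, pow_add, Equiv.Perm.mul_apply, ih, pow_two, Equiv.Perm.mul_apply, lay_apply,
      lay_apply, hβ, succ_nsmul]
    ext
    · rfl
    · show x + t • (u i + u (β i)) + u i + u (β i) = x + (t • (u i + u (β i)) + (u i + u (β i)))
      ring

theorem lay_not_sh {ι : Type} (n : ℕ) (β : ι → ι) (hβ : ∀ i, β (β i) = i) (u : ι → ZMod n)
    (i : ι) (hi : β i ≠ i) (x : ZMod n) :
    ¬ Sh (2 * addOrderOf (u i + u (β i))) (lay n β hβ u) (i, x) := by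
  rintro ⟨j, h1, h2, h3⟩
  rcases Nat.even_or_odd' j with ⟨t, rfl | rfl⟩
  · rw [lay_pow] at h3
    have h4 : x + t • (u i + u (β i)) = x := congrArg Prod.snd h3
    have h5 : t • (u i + u (β i)) = 0 := by simpa using h4
    have h6 := Nat.le_of_dvd (by omega) (addOrderOf_dvd_of_nsmul_eq_zero h5)
    omega
  · rw [pow_succ', Equiv.Perm.mul_apply, lay_pow, lay_apply] at h3
    exact hi (congrArg Prod.fst h3)

open Classical in
/-- The main lemma. -/
theorem ld_layers (n : ℕ) [NeZero n] (ι : Type) [Finite ι] (α : Fin 2 → ι → ι)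
    (hα : ∀ t i, α t (α t i) = i) (D : Fin 2 → ι → Finset (ZMod n))
    (hsym : ∀ t i x, x ∈ D t (α t i) ↔ -x ∈ D t i) (hfix : ∀ t i, α t i = i → D t i = ∅)
    (m : Fin 2 → ι → ℕ) (hm : ∀ t i, (D t i).card = 2 * m t i) (k : ℕ)
    (hk : ∀ i, m 0 i + m 1 i = k) (X : SimpleGraph (ι × ZMod n))
    (hX : ∀ i x j y, X.Adj (i, x) (j, y) ↔ ∃ t, α t i = j ∧ y - x ∈ D t i) : LD X k := by
  obtain ⟨N, ⟨φ⟩⟩ := Finite.exists_equiv_fin ι
  -- the sizes agree
  have hms : ∀ t i, m t (α t i) = m t i := by
    intro t i
    have h1 : (D t (α t i)).card = (D t i).card := by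
      refine card_bij (fun x _ => -x) ?_ ?_ ?_
      · intro x hx
        exact (hsym t i x).1 hx
      · intro x _ y _ h
        exact neg_injective h
      · intro y hy
        exact ⟨-y, (hsym t i (-y)).2 (by rwa [neg_neg]), neg_neg y⟩
    rw [hm, hm] at h1
    omega
  -- the pairs
  choose a b hab hsum using fun (t : Fin 2) (i : ι) => pairing n (D t i) (m t i) (hm t i)
  -- type and index
  let s : ℕ → ι → Fin 2 := fun c i => if c < m 0 i then 0 else 1
  let q : ℕ → ι → ℕ := fun c i => if c < m 0 i then c else c - m 0 i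
  let β : ℕ → ι → ι := fun c i => α (s c i) i
  have hs0 : ∀ c i, c < m 0 i → s c i = 0 := fun c i h => if_pos h
  have hs1 : ∀ c i, ¬ c < m 0 i → s c i = 1 := fun c i h => if_neg h
  have hq0 : ∀ c i, c < m 0 i → q c i = c := fun c i h => if_pos h
  have hq1 : ∀ c i, ¬ c < m 0 i → q c i = c - m 0 i := fun c i h => if_neg h
  have hqm : ∀ c i, c < k → q c i < m (s c i) i := by
    intro c i hc
    by_cases h : c < m 0 i
    · rw [hs0 c i h, hq0 c i h]; exact h
    · rw [hs1 c i h, hq1 c i h]
      have := hk i
      omega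
  have hm0 : ∀ c i, m 0 (β c i) = m 0 i := by
    intro c i
    by_cases h : c < m 0 i
    · show m 0 (α (s c i) i) = m 0 i
      rw [hs0 c i h, hms]
    · show m 0 (α (s c i) i) = m 0 i
      rw [hs1 c i h]
      have h1 := hk (α 1 i)
      have h2 := hk i
      have h3 := hms 1 i
      omega
  have hsβ : ∀ c i, s c (β c i) = s c i := by
    intro c i
    show (if c < m 0 (β c i) then (0 : Fin 2) else 1) = if c < m 0 i then 0 else 1
    rw [hm0]
  have hqβ : ∀ c i, q c (β c i) = q c i := by
    intro c i
    show (if c < m 0 (β c i) then c else c - m 0 (β c i)) = if c < m 0 i then c else c - m 0 i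
    rw [hm0]
  have hβ : ∀ c i, β c (β c i) = i := by
    intro c i
    show α (s c (β c i)) (β c i) = i
    rw [hsβ]
    exact hα _ _
  have hβne : ∀ c i, c < k → β c i ≠ i := by
    intro c i hc h
    have h1 := hqm c i hc
    have h2 := hfix (s c i) i h
    have h3 := hm (s c i) i
    rw [h2, card_empty] at h3
    omega
  let u : ℕ → ι → ZMod n := fun c i =>
    if φ i < φ (β c i) then a (s c i) i (q c i) else -b (s c i) (β c i) (q c i)
  let P : Fin k → SimpleGraph (ι × ZMod n) := fun c => pg (lay n (β c) (hβ c) (u c))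
  -- the periods
  have hper : ∀ c i, c < k → addOrderOf (u c i + u c (β c i)) =
      if φ i < φ (β c i) then addOrderOf (a (s c i) i (q c i) - b (s c i) i (q c i))
      else addOrderOf (a (s c i) (β c i) (q c i) - b (s c i) (β c i) (q c i)) := by
    intro c i hc
    have hne : φ i ≠ φ (β c i) := fun h => hβne c i hc (φ.injective h).symm
    by_cases h : φ i < φ (β c i)
    · have h2 : ¬ φ (β c i) < φ (β c (β c i)) := by
        rw [hβ]; exact not_lt.2 h.le
      have e1 : u c i = a (s c i) i (q c i) := if_pos h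
      have e2 : u c (β c i) = -b (s c (β c i)) (β c (β c i)) (q c (β c i)) := if_neg h2
      rw [e1, e2, if_pos h, hβ, hsβ, hqβ, sub_eq_add_neg]
    · have h2 : φ (β c i) < φ (β c (β c i)) := by
        rw [hβ]; exact lt_of_le_of_ne (not_lt.1 h) hne.symm
      have e1 : u c i = -b (s c i) (β c i) (q c i) := if_neg h
      have e2 : u c (β c i) = a (s c (β c i)) (β c i) (q c (β c i)) := if_pos h2
      rw [e1, e2, if_neg h, hsβ, hqβ]
      congr 1
      abel
  -- membership of the voltages
  have hu : ∀ c i, c < k → u c i ∈ D (s c i) i := by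
    intro c i hc
    by_cases h : φ i < φ (β c i)
    · have e1 : u c i = a (s c i) i (q c i) := if_pos h
      rw [e1, hab]
      exact ⟨_, hqm c i hc, Or.inl rfl⟩
    · have e1 : u c i = -b (s c i) (β c i) (q c i) := if_neg h
      rw [e1, ← hsym, hab]
      refine ⟨q c i, ?_, Or.inr rfl⟩
      have := hqm c (β c i) hc
      rwa [hsβ, hqβ] at this
  refine ⟨Fin k, inferInstance, P, Fintype.card_fin k, fun c v => pg_deg _ v, ?_, ?_⟩
  · -- the load
    rintro ⟨i, x⟩
    let F : Fin 2 → ℕ → ℝ := fun t j =>
      if φ i < φ (α t i) then 1 / (addOrderOf (a t i j - b t i j) : ℝ)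
      else 1 / (addOrderOf (a t (α t i) j - b t (α t i) j) : ℝ)
    have hF : ∀ t, ∑ j ∈ range (m t i), F t j ≤ 1 / 2 := by
      intro t
      by_cases h : φ i < φ (α t i)
      · have : ∀ j, F t j = 1 / (addOrderOf (a t i j - b t i j) : ℝ) := fun j => if_pos h
        rw [sum_congr rfl fun j _ => this j]
        exact hsum t i
      · have : ∀ j, F t j = 1 / (addOrderOf (a t (α t i) j - b t (α t i) j) : ℝ) :=
          fun j => if_neg h
        rw [sum_congr rfl fun j _ => this j, ← hms t i]
        exact hsum t (α t i)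
    have hterm : ∀ c : Fin k, (2 : ℝ) / csize (P c) (i, x) ≤ F (s c i) (q c i) := by
      intro c
      have h1 : 2 * addOrderOf (u c i + u c (β c i)) ≤ csize (P c) (i, x) :=
        pg_size (lay_not_sh n (β c) (hβ c) (u c) i (hβne c i c.2) x)
      have h2 : 0 < addOrderOf (u c i + u c (β c i)) := addOrderOf_pos _
      have h3 : (2 : ℝ) * addOrderOf (u c i + u c (β c i)) ≤ csize (P c) (i, x) := by
        exact_mod_cast h1
      have h2' : (0 : ℝ) < addOrderOf (u c i + u c (β c i)) := by exact_mod_cast h2
      have h4 : (2 : ℝ) / csize (P c) (i, x) ≤ 1 / addOrderOf (u c i + u c (β c i)) := by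
        rw [div_le_div_iff₀ (by linarith) h2', one_mul]
        exact h3
      refine h4.trans (le_of_eq ?_)
      rw [hper c i c.2]
      by_cases h : φ i < φ (β c i)
      · rw [if_pos h]
        exact (if_pos h).symm
      · rw [if_neg h]
        exact (if_neg h).symm
    refine (sum_le_sum fun c _ => hterm c).trans ?_
    rw [Fin.sum_univ_eq_sum_range (fun c => F (s c i) (q c i)) k, ← hk i, sum_range_add]
    have h1 : ∑ c ∈ range (m 0 i), F (s c i) (q c i) = ∑ j ∈ range (m 0 i), F 0 j := by
      refine sum_congr rfl fun c hc => ?_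
      rw [hs0 c i (mem_range.1 hc), hq0 c i (mem_range.1 hc)]
    have h2 : ∑ c ∈ range (m 1 i), F (s (m 0 i + c) i) (q (m 0 i + c) i) =
        ∑ j ∈ range (m 1 i), F 1 j := by
      refine sum_congr rfl fun c hc => ?_
      rw [hs1 (m 0 i + c) i (by omega), hq1 (m 0 i + c) i (by omega)]
      congr 1
      omega
    rw [h1, h2]
    have := hF 0
    have := hF 1
    linarith
  · -- the union
    ext ⟨i, x⟩ ⟨j, y⟩
    rw [iSup_adj, hX]
    constructor
    · rintro ⟨t, rfl, hxy⟩
      have hne : α t i ≠ i := by
        intro h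
        rw [hfix t i h] at hxy
        exact absurd hxy (notMem_empty _)
      -- an index of the edge
      have key : ∀ i x y, y - x ∈ D t i → α t i ≠ i → φ i < φ (α t i) →
          ∃ c : Fin k, (P c).Adj (i, x) (α t i, y) := by
        intro i x y hxy hne hlt
        obtain ⟨j, hj, hor⟩ := (hab t i (y - x)).1 hxy
        have hc : ∃ c < k, s c i = t ∧ q c i = j := by
          have h0 := hk i
          rcases (show t = 0 ∨ t = 1 by omega) with rfl | rfl
          · exact ⟨j, by omega, hs0 j i hj, hq0 j i hj⟩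
          · refine ⟨m 0 i + j, by omega, hs1 _ i (by omega), ?_⟩
            rw [hq1 _ i (by omega)]
            omega
        obtain ⟨c, hck, hsc, hqc⟩ := hc
        refine ⟨⟨c, hck⟩, ?_⟩
        have hb : β c i = α t i := by
          show α (s c i) i = α t i
          rw [hsc]
        have hlt' : φ i < φ (β c i) := by rw [hb]; exact hlt
        have hnlt : ¬ φ (β c i) < φ (β c (β c i)) := by
          rw [hβ]; exact not_lt.2 hlt'.le
        have e1 : u c i = a (s c i) i (q c i) := if_pos hlt'
        have e2 : u c (β c i) = -b (s c (β c i)) (β c (β c i)) (q c (β c i)) := if_neg hnlt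
        rw [hsc, hqc] at e1
        rw [hβ, hsβ, hqβ, hsc, hqc] at e2
        refine ⟨fun h => hne (congrArg Prod.fst h).symm, ?_⟩
        rcases hor with hor | hor
        · left
          show lay n (β c) (hβ c) (u c) (i, x) = (α t i, y)
          rw [lay_apply, e1, ← hor, hb]
          ext
          · rfl
          · show x + (y - x) = y
            ring
        · right
          show lay n (β c) (hβ c) (u c) (α t i, y) = (i, x)
          rw [← hb, lay_apply, hβ, e2, ← hor]
          ext
          · rfl
          · show y + -(y - x) = x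
            ring
      rcases lt_or_gt_of_ne (fun h => hne (φ.injective h)) with h | h
      · -- `φ (α t i) < φ i`
        have h1 : x - y ∈ D t (α t i) := by
          rw [hsym, neg_sub]
          exact hxy
        obtain ⟨c, hc⟩ := key (α t i) y x h1 (by rw [hα]; exact hne.symm) (by rw [hα]; exact h)
        rw [hα] at hc
        exact ⟨c, hc.symm⟩
      · exact key i x y hxy hne h
    · rintro ⟨c, hne, h | h⟩
      · have h' : lay n (β c) (hβ c) (u c) (i, x) = (j, y) := h
        rw [lay_apply] at h'
        have h1 : β c i = j := congrArg Prod.fst h'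
        have h2 : x + u c i = y := congrArg Prod.snd h'
        refine ⟨s c i, h1, ?_⟩
        have h3 : y - x = u c i := by rw [← h2]; ring
        rw [h3]
        exact hu c i c.2
      · have h' : lay n (β c) (hβ c) (u c) (j, y) = (i, x) := h
        rw [lay_apply] at h'
        have h1 : β c j = i := congrArg Prod.fst h'
        have h2 : y + u c j = x := congrArg Prod.snd h'
        refine ⟨s c i, ?_, ?_⟩
        · show β c i = j
          rw [← h1, hβ]
        · have h3 : y - x = -u c j := by rw [← h2]; ring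
          rw [h3, ← h1, hsβ]
          have h4 : α (s c j) j = β c j := rfl
          rw [← h4, hsym, neg_neg]
          exact hu c j c.2

end Pool.Agent.W5h10.RL
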