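import Mathlib

set_option autoImplicit false

/-!
Pairing the elements of a subset of a finite cyclic group so that the differences have large order
on average.
-/

namespace Pool.Agent.W5h10.RL

open Finset

theorem inv_ord_le (n g : ℕ) [NeZero n] (hg : 0 < g) :
    (1 : ℝ) / addOrderOf ((g : ℕ) : ZMod n) ≤ (g : ℝ) / n := by
  have hn : 0 < n := Nat.pos_of_ne_zero (NeZero.ne n)
  rw [ZMod.addOrderOf_coe _ (NeZero.ne n)]
  have h1 : 0 < n.gcd g := Nat.gcd_pos_of_pos_left _ hn
  have h2 : n / n.gcd g * n.gcd g = n := Nat.div_mul_cancel (Nat.gcd_dvd_left _ _)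
  have h3 : 0 < n / n.gcd g := Nat.div_pos (Nat.le_of_dvd hn (Nat.gcd_dvd_left _ _)) h1
  have h4 : n.gcd g ≤ g := Nat.le_of_dvd hg (Nat.gcd_dvd_right _ _)
  rw [div_le_div_iff₀ (by exact_mod_cast h3) (by exact_mod_cast hn), one_mul]
  have h5 : n ≤ g * (n / n.gcd g) := by
    calc n = n.gcd g * (n / n.gcd g) := by rw [mul_comm]; exact h2.symm
      _ ≤ g * (n / n.gcd g) := Nat.mul_le_mul_right _ h4
  exact_mod_cast h5

theorem pairing (n : ℕ) [NeZero n] (D : Finset (ZMod n)) (m : ℕ) (hD : D.card = 2 * m) :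
    ∃ a b : ℕ → ZMod n, (∀ x, x ∈ D ↔ ∃ i < m, x = a i ∨ x = b i) ∧
      ∑ i ∈ range m, (1 : ℝ) / addOrderOf (a i - b i) ≤ 1 / 2 := by
  have hn : 0 < n := Nat.pos_of_ne_zero (NeZero.ne n)
  rcases Nat.eq_zero_or_pos m with rfl | hm
  · refine ⟨0, 0, ?_, by simp⟩
    intro x
    have : D = ∅ := card_eq_zero.1 (by simpa using hD)
    simp [this]
  · set T := D.image ZMod.val with hTd
    have hT : T.card = 2 * m := by
      rw [hTd, card_image_of_injective _ (ZMod.val_injective n), hD]
    set e := T.orderEmbOfFin hT with he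
    have h0 : 0 < 2 * m := by omega
    set E : ℕ → ℕ := fun j => if h : j < 2 * m then e ⟨j, h⟩ else n + e ⟨0, h0⟩ with hE
    have hlt : ∀ j (h : j < 2 * m), E j = e ⟨j, h⟩ := fun j h => by simp only [hE]; rw [dif_pos h]
    have hlast : E (2 * m) = n + E 0 := by
      rw [hlt 0 h0]
      simp [hE]
    have hval : ∀ j (h : j < 2 * m), e ⟨j, h⟩ < n := by
      intro j h
      have h1 : e ⟨j, h⟩ ∈ T := T.orderEmbOfFin_mem hT _
      obtain ⟨x, _, hx⟩ := mem_image.1 h1
      rw [← hx]
      exact ZMod.val_lt x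
    have hmono : ∀ j < 2 * m, E j < E (j + 1) := by
      intro j hj
      rcases Nat.lt_or_ge (j + 1) (2 * m) with h | h
      · rw [hlt j hj, hlt (j + 1) h]
        exact e.strictMono (by rw [Fin.mk_lt_mk]; omega)
      · have h1 : j + 1 = 2 * m := by omega
        rw [h1, hlast, hlt j hj]
        have := hval j hj
        omega
    have hmem : ∀ x, x ∈ D ↔ ∃ j < 2 * m, x = (E j : ZMod n) := by
      intro x
      constructor
      · intro hx
        have h1 : x.val ∈ T := mem_image_of_mem _ hx
        have h2 : x.val ∈ Set.range e := by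
          rw [he, T.range_orderEmbOfFin hT]
          exact h1
        obtain ⟨⟨j, hj⟩, h3⟩ := h2
        refine ⟨j, hj, ?_⟩
        rw [hlt j hj, h3, ZMod.natCast_zmod_val]
      · rintro ⟨j, hj, rfl⟩
        have h1 : e ⟨j, hj⟩ ∈ T := T.orderEmbOfFin_mem hT _
        obtain ⟨x, hx, hxe⟩ := mem_image.1 h1
        rw [hlt j hj, ← hxe, ZMod.natCast_zmod_val]
        exact hx
    have hcast : ((E (2 * m) : ℕ) : ZMod n) = (E 0 : ZMod n) := by
      rw [hlast]
      push_cast
      simp
    have htot : ∀ t, ∑ i ∈ range t, (((E (2 * i + 1) : ℝ) - E (2 * i)) +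
        ((E (2 * i + 2) : ℝ) - E (2 * i + 1))) = (E (2 * t) : ℝ) - E 0 := by
      intro t
      induction t with
      | zero => simp
      | succ t ih =>
        rw [sum_range_succ, ih]
        have : 2 * (t + 1) = 2 * t + 2 := by ring
        rw [this]
        ring
    have htot' := htot m
    rw [hlast, sum_add_distrib] at htot'
    push_cast at htot'
    have hord : ∀ j < 2 * m, (1 : ℝ) / addOrderOf ((E j : ZMod n) - E (j + 1)) ≤
        ((E (j + 1) : ℝ) - E j) / n := by
      intro j hj
      have h1 := hmono j hj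
      have h2 : (E j : ZMod n) - E (j + 1) = -(((E (j + 1) - E j : ℕ)) : ZMod n) := by
        rw [Nat.cast_sub h1.le]
        ring
      rw [h2, addOrderOf_neg]
      refine (inv_ord_le n _ (by omega)).trans ?_
      rw [Nat.cast_sub h1.le]
    have hnR : (0 : ℝ) < n := by exact_mod_cast hn
    rcases le_total (∑ i ∈ range m, ((E (2 * i + 1) : ℝ) - E (2 * i)))
        (∑ i ∈ range m, ((E (2 * i + 2) : ℝ) - E (2 * i + 1))) with h | h
    · refine ⟨fun i => E (2 * i), fun i => E (2 * i + 1), ?_, ?_⟩
      · intro x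
        rw [hmem]
        constructor
        · rintro ⟨j, hj, rfl⟩
          rcases Nat.even_or_odd' j with ⟨i, rfl | rfl⟩
          · exact ⟨i, by omega, Or.inl rfl⟩
          · exact ⟨i, by omega, Or.inr rfl⟩
        · rintro ⟨i, hi, rfl | rfl⟩
          · exact ⟨2 * i, by omega, rfl⟩
          · exact ⟨2 * i + 1, by omega, rfl⟩
      · refine (sum_le_sum fun i hi => hord (2 * i) (by have := mem_range.1 hi; omega)).trans ?_
        rw [← sum_div, div_le_div_iff₀ hnR (by norm_num)]
        linarith
    · refine ⟨fun i => E (2 * i + 1), fun i => E (2 * i + 2), ?_, ?_⟩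
      · intro x
        rw [hmem]
        constructor
        · rintro ⟨j, hj, rfl⟩
          rcases Nat.even_or_odd' j with ⟨i, rfl | rfl⟩
          · rcases Nat.eq_zero_or_pos i with rfl | hi
            · refine ⟨m - 1, by omega, Or.inr ?_⟩
              have h1 : 2 * (m - 1) + 2 = 2 * m := by omega
              show ((E (2 * 0) : ℕ) : ZMod n) = ((E (2 * (m - 1) + 2) : ℕ) : ZMod n)
              rw [h1, hcast]
            · refine ⟨i - 1, by omega, Or.inr ?_⟩
              have h1 : 2 * (i - 1) + 2 = 2 * i := by omega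
              show ((E (2 * i) : ℕ) : ZMod n) = ((E (2 * (i - 1) + 2) : ℕ) : ZMod n)
              rw [h1]
          · exact ⟨i, by omega, Or.inl rfl⟩
        · rintro ⟨i, hi, rfl | rfl⟩
          · exact ⟨2 * i + 1, by omega, rfl⟩
          · rcases Nat.lt_or_ge (2 * i + 2) (2 * m) with h1 | h1
            · exact ⟨2 * i + 2, h1, rfl⟩
            · refine ⟨0, by omega, ?_⟩
              have h2 : 2 * i + 2 = 2 * m := by omega
              show ((E (2 * i + 2) : ℕ) : ZMod n) = ((E 0 : ℕ) : ZMod n)
              rw [h2, hcast]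
      · refine (sum_le_sum fun i hi => hord (2 * i + 1)
          (by have := mem_range.1 hi; omega)).trans ?_
        rw [← sum_div, div_le_div_iff₀ hnR (by norm_num)]
        linarith

end Pool.Agent.W5h10.RL
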