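import Pool.Agent.W5h10.RL.Tri
import Pool.Agent.W5h10.RL.SpTop
import Pool.Agent.W5h10.RL.Even

set_option autoImplicit false

/-!
Lifts of regular simple graphs are regular; almost all of them satisfy the linear arboricity
conjecture.
-/

namespace Pool.Agent.W5h10.RL

open SimpleGraph H931R3.LA Pool.Agent.W111.LAR

theorem lift_reg {V E Γ X : Type} [Finite V] [Finite E] [Finite X] [Group Γ] [MulAction Γ X]
    (p q : E → V) (r : ℕ)
    (hreg : ∀ v, {e | p e = v}.ncard + {e | q e = v}.ncard = r) (hne : ∀ e, p e ≠ q e)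
    (hsimp : ∀ e e', s(p e, q e) = s(p e', q e') → e = e') (σ : E → Γ) (a : V × X) :
    ((lift p q σ : SimpleGraph (V × X)).neighborSet a).ncard = r := by
  have h1 : (lift p q σ : SimpleGraph (V × X)).neighborSet a =
      (fun e => (q e, σ e • a.2)) '' {e | p e = a.1} ∪
      (fun e => (p e, (σ e)⁻¹ • a.2)) '' {e | q e = a.1} := by
    ext b
    constructor
    · rintro ⟨_, e, ⟨h2, h3, h4⟩ | ⟨h2, h3, h4⟩⟩
      · exact Or.inl ⟨e, h2, Prod.ext h3 h4⟩
      · exact Or.inr ⟨e, h3, Prod.ext h2 (by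
          show (σ e)⁻¹ • a.2 = b.2
          rw [← h4, inv_smul_smul])⟩
    · rintro (⟨e, h2, rfl⟩ | ⟨e, h2, rfl⟩)
      · refine ⟨?_, e, Or.inl ⟨h2, rfl, rfl⟩⟩
        intro h
        exact hne e (h2.trans (congrArg Prod.fst h))
      · refine ⟨?_, e, Or.inr ⟨rfl, h2, by simp⟩⟩
        intro h
        exact hne e ((congrArg Prod.fst h).symm.trans h2.symm)
  rw [h1, Set.ncard_union_eq ?_ (Set.toFinite _) (Set.toFinite _), Set.InjOn.ncard_image,
    Set.InjOn.ncard_image, hreg]
  · intro e he e' he' h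
    refine hsimp e e' ?_
    have h2 : p e = p e' := congrArg Prod.fst h
    have h3 : q e = q e' := (he : q e = a.1).trans (he' : q e' = a.1).symm
    rw [h2, h3]
  · intro e he e' he' h
    refine hsimp e e' ?_
    have h2 : q e = q e' := congrArg Prod.fst h
    have h3 : p e = p e' := (he : p e = a.1).trans (he' : p e' = a.1).symm
    rw [h2, h3]
  · rw [Set.disjoint_left]
    rintro _ ⟨e, he, rfl⟩ ⟨e', he', h⟩
    have h2 : p e' = q e := congrArg Prod.fst h
    have h3 : p e = q e' := (he : p e = a.1).trans (he' : q e' = a.1).symm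
    have h4 : e = e' := by
      refine hsimp e e' ?_
      rw [h2, h3]
      exact Sym2.eq_swap
    subst h4
    exact hne e h2

theorem lifts_all {V E : Type} [Finite V] [Finite E] [Nonempty V] (p q : E → V) (r : ℕ)
    (hr : 0 < r) (hreg : ∀ v, {e | p e = v}.ncard + {e | q e = v}.ncard = r)
    (hne : ∀ e, p e ≠ q e) (hsimp : ∀ e e', s(p e, q e) = s(p e', q e') → e = e') :
    ∃ C : ℕ, ∀ n : ℕ, 0 < n → n * {σ : E → Equiv.Perm (Fin n) |
      la (lift p q σ : SimpleGraph (V × Fin n)) ≠ (r + 2) / 2}.ncard ≤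
      C * n.factorial ^ Nat.card E := by
  obtain ⟨C, hC⟩ := nonsparse_count p q (6 * r ^ 2)
  refine ⟨C, fun n hn => ?_⟩
  refine le_trans (Nat.mul_le_mul_left _ ?_) (hC n hn)
  refine Set.ncard_le_ncard ?_ (Set.toFinite _)
  intro σ hσ
  have : Nonempty (Fin n) := ⟨⟨0, hn⟩⟩
  intro hs
  exact hσ (all_sparse _ r hr (lift_reg p q r hreg hne hsimp σ) hs)

end Pool.Agent.W5h10.RL
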