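import Pool.Agent.W111.LAR.Dec

set_option autoImplicit false

/-!
Graphs in which small sets of vertices span at most as many edges as vertices: short cyclic
components of edge-disjoint subgraphs of maximum degree two are far apart.
-/

namespace Pool.Agent.W5h10.RL

open Finset SimpleGraph H931R3.LA Pool.Agent.W111.LAR

/-- Every set `S` of at most `N` vertices spans at most `|S|` edges. -/
def Sparse {V : Type} (N : ℕ) (G : SimpleGraph V) : Prop :=
  ∀ S : Set V, S.ncard ≤ N → {e ∈ G.edgeSet | ∀ v ∈ e, v ∈ S}.ncard ≤ S.ncard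

theorem Sparse.mono {V : Type} {M N : ℕ} {G : SimpleGraph V} (h : Sparse N G) (hMN : M ≤ N) :
    Sparse M G := fun S hS => h S (hS.trans hMN)

/-- The subgraph spanned by `S`, on the same vertex set. -/
def spn {V : Type} (G : SimpleGraph V) (S : Set V) : SimpleGraph V where
  Adj a b := G.Adj a b ∧ a ∈ S ∧ b ∈ S
  symm.symm _ _ h := ⟨h.1.symm, h.2.2, h.2.1⟩
  loopless.irrefl _ h := G.irrefl h.1

theorem spn_edgeSet {V : Type} (G : SimpleGraph V) (S : Set V) :
    (spn G S).edgeSet = {e ∈ G.edgeSet | ∀ v ∈ e, v ∈ S} := by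
  ext e
  induction e with
  | _ a b =>
    simp only [mem_edgeSet, Set.mem_ofPred_eq, Sym2.mem_iff, forall_eq_or_imp, forall_eq]
    rfl

open Classical in
theorem sum_spn {V : Type} [Fintype V] (G : SimpleGraph V) (S : Set V) :
    ∑ v, (G.neighborSet v ∩ S).ncard * (if v ∈ S then 1 else 0) =
      2 * {e ∈ G.edgeSet | ∀ v ∈ e, v ∈ S}.ncard := by
  rw [← spn_edgeSet, ← coe_edgeFinset, Set.ncard_coe_finset,
    ← sum_degrees_eq_twice_card_edges]
  refine sum_congr rfl fun v _ => ?_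
  rw [← card_neighborFinset_eq_degree, ← Set.ncard_coe_finset, coe_neighborFinset]
  by_cases hv : v ∈ S
  · rw [if_pos hv, mul_one]
    congr 1
    ext w
    exact ⟨fun h => ⟨h.1, hv, h.2⟩, fun h => ⟨h.1, h.2.2⟩⟩
  · rw [if_neg hv, mul_zero]
    symm
    rw [Set.ncard_eq_zero (Set.toFinite _)]
    ext w
    constructor
    · intro h
      exact absurd h.2.1 hv
    · intro h
      exact absurd h (Set.notMem_empty _)

theorem sparse_two {V : Type} [Finite V] {N : ℕ} {G : SimpleGraph V} (h : Sparse N G) (S : Set V)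
    (hS : S.ncard ≤ N) (h2 : ∀ v ∈ S, 2 ≤ (G.neighborSet v ∩ S).ncard) (w : V) (hw : w ∈ S) :
    (G.neighborSet w ∩ S).ncard ≤ 2 := by
  classical
  have := Fintype.ofFinite V
  by_contra hcon
  push Not at hcon
  have h3 := sum_spn G S
  have h4 := h S hS
  have h5 : ∑ v, (2 * (if v ∈ S then 1 else 0)) <
      ∑ v, (G.neighborSet v ∩ S).ncard * (if v ∈ S then 1 else 0) := by
    refine sum_lt_sum (fun v _ => ?_) ⟨w, mem_univ _, ?_⟩
    · by_cases hv : v ∈ S
      · rw [if_pos hv, mul_one, mul_one]; exact h2 v hv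
      · rw [if_neg hv]
        simp
    · rw [if_pos hw, mul_one, mul_one]; exact hcon
  have h6 : ∑ v, (2 * (if v ∈ S then 1 else 0)) = 2 * S.ncard := by
    rw [← mul_sum, Set.ncard_eq_toFinset_card']
    congr 1
    rw [← sum_filter]
    simp only [sum_const, smul_eq_mul, mul_one]
    congr 1
    ext v
    simp
  omega

theorem path_nbrs {V : Type} {G : SimpleGraph V} {u v : V} (p : G.Walk u v) (hp : p.IsPath) (w : V)
    (hw : w ∈ p.support) (hu : w ≠ u) (hv : w ≠ v) :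
    ∃ a b, a ≠ b ∧ G.Adj w a ∧ G.Adj w b ∧ a ∈ p.support ∧ b ∈ p.support := by
  obtain ⟨i, hi, hil⟩ := Walk.mem_support_iff_exists_getVert.1 hw
  have h0 : i ≠ 0 := by
    rintro rfl
    rw [Walk.getVert_zero] at hi
    exact hu hi.symm
  have hl : i ≠ p.length := by
    rintro rfl
    rw [Walk.getVert_length] at hi
    exact hv hi.symm
  obtain ⟨j, rfl⟩ : ∃ j, i = j + 1 := ⟨i - 1, by omega⟩
  have h1 := p.adj_getVert_succ (i := j) (by omega)
  have h2 := p.adj_getVert_succ (i := j + 1) (by omega)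
  rw [hi] at h1 h2
  refine ⟨p.getVert j, p.getVert (j + 1 + 1), ?_, h1.symm, h2, p.getVert_mem_support _,
    p.getVert_mem_support _⟩
  intro heq
  have h3 := hp.getVert_injOn (by rw [Set.mem_ofPred_eq]; omega)
    (by rw [Set.mem_ofPred_eq]; omega) heq
  omega

theorem two_le_of {V : Type} [Finite V] {A : Set V} {a b : V} (hab : a ≠ b) (ha : a ∈ A)
    (hb : b ∈ A) : 2 ≤ A.ncard := by
  have h1 : ({a, b} : Set V) ⊆ A := by
    rintro z (rfl | rfl)
    · exact ha
    · exact hb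
  have h2 := Set.ncard_le_ncard h1 (Set.toFinite _)
  rwa [Set.ncard_pair hab] at h2

theorem three_le_of {V : Type} [Finite V] {A B : Set V} {y : V} (hA : A.ncard = 2) (hAB : A ⊆ B)
    (hy : y ∈ B) (hy' : y ∉ A) : 3 ≤ B.ncard := by
  have h1 := Set.ncard_lt_ncard (ssubset_of_subset_of_ne hAB (fun h => hy' (h ▸ hy)))
    (Set.toFinite _)
  omega

/-- Short cyclic components are far apart. -/
theorem far {V : Type} [Finite V] {N : ℕ} {G H H' : SimpleGraph V} (hs : Sparse N G) (hH : H ≤ G)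
    (hH' : H' ≤ G) {x x' : V} (hx : Cyc H x) (hx' : Cyc H' x')
    (hne : (∀ a b, H.Adj a b → ¬ H'.Adj a b) ∨ (H = H' ∧ ¬ H.Reachable x x')) {z z' : V}
    (hz : H.Reachable x z) (hz' : H'.Reachable x' z') (p : G.Walk z z') :
    N < csize H x + csize H' x' + p.length + 1 := by
  classical
  by_contra hcon
  push Not at hcon
  set p' := p.bypass with hp'
  have hpath : p'.IsPath := p.bypass_isPath
  have hlen : p'.length ≤ p.length := p.length_bypass_le_length
  set Z : Set V := {w | H.Reachable x w} with hZ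
  set Z' : Set V := {w | H'.Reachable x' w} with hZ'
  set Q : Set V := {w | w ∈ p'.support} with hQ
  have hQc : Q.ncard ≤ p'.length + 1 := by
    have h1 : Q = (p'.support.toFinset : Set V) := by
      ext w; simp [hQ]
    rw [h1, Set.ncard_coe_finset, ← Walk.length_support]
    exact List.toFinset_card_le _
  have hSc : (Z ∪ Z' ∪ Q).ncard ≤ N := by
    have h1 := Set.ncard_union_le (Z ∪ Z') Q
    have h2 := Set.ncard_union_le Z Z'
    have h3 : Z.ncard = csize H x := rfl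
    have h4 : Z'.ncard = csize H' x' := rfl
    omega
  have nZ : ∀ w ∈ Z, (H.neighborSet w).ncard = 2 ∧ H.neighborSet w ⊆ G.neighborSet w ∩ Z := by
    intro w hw
    exact ⟨hx w hw, fun u hu => ⟨hH hu, hw.trans (SimpleGraph.Adj.reachable hu)⟩⟩
  have nZ' : ∀ w ∈ Z', (H'.neighborSet w).ncard = 2 ∧
      H'.neighborSet w ⊆ G.neighborSet w ∩ Z' := by
    intro w hw
    exact ⟨hx' w hw, fun u hu => ⟨hH' hu, hw.trans (SimpleGraph.Adj.reachable hu)⟩⟩
  have sZ : Z ⊆ Z ∪ Z' ∪ Q := fun w hw => Or.inl (Or.inl hw)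
  have sZ' : Z' ⊆ Z ∪ Z' ∪ Q := fun w hw => Or.inl (Or.inr hw)
  have sQ : Q ⊆ Z ∪ Z' ∪ Q := fun w hw => Or.inr hw
  have h2 : ∀ v ∈ Z ∪ Z' ∪ Q, 2 ≤ (G.neighborSet v ∩ (Z ∪ Z' ∪ Q)).ncard := by
    have c1 : ∀ w ∈ Z, 2 ≤ (G.neighborSet w ∩ (Z ∪ Z' ∪ Q)).ncard := by
      intro w hw
      rw [← (nZ w hw).1]
      exact Set.ncard_le_ncard (fun u hu => ⟨((nZ w hw).2 hu).1, sZ ((nZ w hw).2 hu).2⟩)
        (Set.toFinite _)
    have c2 : ∀ w ∈ Z', 2 ≤ (G.neighborSet w ∩ (Z ∪ Z' ∪ Q)).ncard := by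
      intro w hw
      rw [← (nZ' w hw).1]
      exact Set.ncard_le_ncard (fun u hu => ⟨((nZ' w hw).2 hu).1, sZ' ((nZ' w hw).2 hu).2⟩)
        (Set.toFinite _)
    rintro w ((hw | hw) | hw)
    · exact c1 w hw
    · exact c2 w hw
    · by_cases h3 : w = z
      · exact c1 w (by rw [h3]; exact hz)
      · by_cases h4 : w = z'
        · exact c2 w (by rw [h4]; exact hz')
        · obtain ⟨a, b, hab, ha, hb, ha', hb'⟩ := path_nbrs p' hpath w hw h3 h4
          exact two_le_of hab ⟨ha, sQ ha'⟩ ⟨hb, sQ hb'⟩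
  have h3 := sparse_two hs (Z ∪ Z' ∪ Q) hSc h2
  by_cases hint : ∃ w, w ∈ Z ∧ w ∈ Z'
  · obtain ⟨w, hw, hw'⟩ := hint
    rcases hne with hne | ⟨rfl, hne⟩
    · have h4 := h3 w (sZ hw)
      obtain ⟨y, hy⟩ : (H'.neighborSet w).Nonempty := by
        rw [← Set.ncard_pos (Set.toFinite _), (nZ' w hw').1]
        norm_num
      have h5 : 3 ≤ (G.neighborSet w ∩ (Z ∪ Z' ∪ Q)).ncard := three_le_of (nZ w hw).1
        (fun u hu => ⟨((nZ w hw).2 hu).1, sZ ((nZ w hw).2 hu).2⟩)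
        ⟨((nZ' w hw').2 hy).1, sZ' ((nZ' w hw').2 hy).2⟩ (fun h => hne w y h hy)
      omega
    · exact hne (Reachable.trans hw (Reachable.symm hw'))
  · have hz'Z : z' ∉ Z := fun h => hint ⟨z', h, hz'⟩
    obtain ⟨d, hd, hd1, hd2⟩ := Walk.exists_boundary_dart p' Z hz hz'Z
    have h4 := h3 d.fst (sZ hd1)
    have h5 : 3 ≤ (G.neighborSet d.fst ∩ (Z ∪ Z' ∪ Q)).ncard := three_le_of (nZ d.fst hd1).1
      (fun u hu => ⟨((nZ _ hd1).2 hu).1, sZ ((nZ _ hd1).2 hu).2⟩)
      ⟨d.adj, sQ (p'.dart_snd_mem_support_of_mem_darts hd)⟩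
      (fun h => hd2 ((nZ _ hd1).2 h).2)
    omega

/-- No edge of a short cyclic component is the third side of a triangle. -/
theorem no_bad {V : Type} [Finite V] {N : ℕ} {G H P : SimpleGraph V} (hs : Sparse N G)
    (hH : H ≤ G) (hP : P ≤ G) (hd : ∀ a b, P.Adj a b → ¬ H.Adj a b) {x : V} (hx : Cyc H x)
    (hsz : csize H x + 1 ≤ N) {a b y : V} (ha : H.Reachable x a) (hb : H.Reachable x b)
    (hab : a ≠ b) (hya : P.Adj y a) (hyb : P.Adj y b) : False := by
  set Z : Set V := {w | H.Reachable x w} with hZ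
  have hSc : (Z ∪ {y}).ncard ≤ N := by
    have h1 := Set.ncard_union_le Z {y}
    have h3 : Z.ncard = csize H x := rfl
    rw [Set.ncard_singleton] at h1
    omega
  have nZ : ∀ w ∈ Z, (H.neighborSet w).ncard = 2 ∧
      H.neighborSet w ⊆ G.neighborSet w ∩ (Z ∪ {y}) := by
    intro w hw
    exact ⟨hx w hw, fun u hu => ⟨hH hu, Or.inl (hw.trans (SimpleGraph.Adj.reachable hu))⟩⟩
  have h2 : ∀ v ∈ Z ∪ {y}, 2 ≤ (G.neighborSet v ∩ (Z ∪ {y})).ncard := by
    rintro w (hw | hw)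
    · rw [← (nZ w hw).1]
      exact Set.ncard_le_ncard (nZ w hw).2 (Set.toFinite _)
    · rw [Set.mem_singleton_iff] at hw
      subst hw
      exact two_le_of hab ⟨hP hya, Or.inl ha⟩ ⟨hP hyb, Or.inl hb⟩
  have h3 := sparse_two hs (Z ∪ {y}) hSc h2 a (Or.inl ha)
  have h4 : 3 ≤ (G.neighborSet a ∩ (Z ∪ {y})).ncard := three_le_of (nZ a ha).1 (nZ a ha).2
    ⟨(hP hya).symm, Or.inr rfl⟩ (fun h => hd a y hya.symm h)
  omega

end Pool.Agent.W5h10.RL
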