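import Pool.Agent.W111.LAR.Sep
import Pool.Agent.W5h10.RL.Sparse

set_option autoImplicit false

/-!
Sets with small boundary in regular graphs in which small sets of vertices span few edges contain a
vertex far from the complement.
-/

namespace Pool.Agent.W5h10.RL

open Finset SimpleGraph Pool.Agent.W111.LAR

theorem deep_sparse {V : Type} [Fintype V] [DecidableEq V] (G : SimpleGraph V)
    [DecidableRel G.Adj] (r R N : ℕ) (hr : 3 ≤ r) (hN : 2 * r * R ≤ N)
    (hreg : ∀ v, (G.neighborSet v).ncard = r) (hs : Sparse N G) (K : Finset V)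
    (hK : K.Nonempty) (hcut : cut G K < r) :
    ∃ y ∈ K, ∀ (w : V) (p : G.Walk y w), p.length ≤ R → w ∈ K := by
  classical
  by_contra hcon
  push Not at hcon
  have hex : ∀ y, ∃ n, ∃ w, w ∉ K ∧ ∃ p : G.Walk y w, p.length = n := by
    intro y
    by_cases hy : y ∈ K
    · obtain ⟨w, p, _, hw⟩ := hcon y hy
      exact ⟨_, w, hw, p, rfl⟩
    · exact ⟨0, y, hy, Walk.nil, rfl⟩
  let δ : V → ℕ := fun y => Nat.find (hex y)
  have δspec : ∀ y, ∃ w, w ∉ K ∧ ∃ p : G.Walk y w, p.length = δ y := fun y => Nat.find_spec (hex y)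
  have δmin : ∀ y w (p : G.Walk y w), w ∉ K → δ y ≤ p.length := fun y w p hw =>
    Nat.find_min' (hex y) ⟨w, hw, p, rfl⟩
  have δR : ∀ y ∈ K, δ y ≤ R := by
    intro y hy
    obtain ⟨w, p, hp, hw⟩ := hcon y hy
    exact (δmin y w p hw).trans hp
  have hpar : ∀ y, y ∈ K → ∃ u, G.Adj y u ∧ δ u < δ y := by
    intro y hy
    obtain ⟨w, hw, p, hp⟩ := δspec y
    cases p with
    | nil => exact absurd hy hw
    | @cons _ u _ h q =>
      refine ⟨u, h, ?_⟩
      have := δmin u w q hw
      rw [Walk.length_cons] at hp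
      omega
  choose! par hpar1 hpar2 using hpar
  -- ancestors
  have hanc : ∀ n, ∀ y, y ∈ K → δ y ≤ n → ∃ A : Finset V, A ⊆ K ∧ y ∈ A ∧ A.card ≤ n ∧
      ∀ z ∈ A, par z ∈ K → par z ∈ A := by
    intro n
    induction n with
    | zero =>
      intro y hy h0
      have := hpar2 y hy
      omega
    | succ n ih =>
      intro y hy hn
      have h1 := hpar2 y hy
      by_cases hp : par y ∈ K
      · obtain ⟨A, hA1, hA2, hA3, hA4⟩ := ih (par y) hp (by omega)
        refine ⟨insert y A, insert_subset hy hA1, mem_insert_self _ _, ?_, ?_⟩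
        · exact (card_insert_le _ _).trans (by omega)
        · intro z hz hz'
          rcases mem_insert.1 hz with rfl | hz
          · exact mem_insert_of_mem hA2
          · exact mem_insert_of_mem (hA4 z hz hz')
      · refine ⟨{y}, singleton_subset_iff.2 hy, mem_singleton_self _, by simp, ?_⟩
        intro z hz hz'
        rw [mem_singleton] at hz
        subst hz
        exact absurd hz' hp
  have hanc' : ∀ y, ∃ A : Finset V, y ∈ K → A ⊆ K ∧ y ∈ A ∧ A.card ≤ R ∧
      ∀ z ∈ A, par z ∈ K → par z ∈ A := by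
    intro y
    by_cases hy : y ∈ K
    · obtain ⟨A, hA⟩ := hanc R y hy (δR y hy)
      exact ⟨A, fun _ => hA⟩
    · exact ⟨∅, fun h => absurd h hy⟩
  choose A hA using hanc'
  -- tree pairs
  let TP : V → V → Prop := fun u v => par u = v ∨ par v = u
  set N0 := K.filter (fun u => par u ∈ K) with hN0
  set Q := K.filter (fun u => par u ∉ K) with hQ
  have hNQ : N0.card + Q.card = K.card := card_filter_add_card_filter_not _
  set D := (K ×ˢ K).filter (fun x => G.Adj x.1 x.2) with hD
  have hwD : wt G K K = D.card := by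
    rw [wt, hD, card_filter, sum_product]
  have hDt : (D.filter (fun x => TP x.1 x.2)).card ≤ 2 * N0.card := by
    have hsub : D.filter (fun x => TP x.1 x.2) ⊆ N0.image (fun u => (u, par u)) ∪
        N0.image (fun u => (par u, u)) := by
      rintro ⟨u, v⟩ hx
      obtain ⟨h1, h2⟩ := mem_filter.1 hx
      obtain ⟨h3, _⟩ := mem_filter.1 h1
      obtain ⟨hu, hv⟩ := mem_product.1 h3
      dsimp only at h2 hu hv
      rcases h2 with h2 | h2
      · refine mem_union_left _ (mem_image.2 ⟨u, mem_filter.2 ⟨hu, ?_⟩, ?_⟩)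
        · rw [h2]; exact hv
        · rw [h2]
      · refine mem_union_right _ (mem_image.2 ⟨v, mem_filter.2 ⟨hv, ?_⟩, ?_⟩)
        · rw [h2]; exact hu
        · rw [h2]
    refine (card_le_card hsub).trans ((card_union_le _ _).trans ?_)
    have h1 := card_image_le (s := N0) (f := fun u => (u, par u))
    have h2 := card_image_le (s := N0) (f := fun u => (par u, u))
    omega
  set En : Finset (Sym2 V) := (D.filter (fun x => ¬ TP x.1 x.2)).image (fun x => s(x.1, x.2))
    with hEn
  have hDn : (D.filter (fun x => ¬ TP x.1 x.2)).card ≤ 2 * En.card := by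
    refine card_le_mul_card_image _ 2 ?_
    intro e _
    induction e with
    | _ a b =>
      have hsub : (D.filter (fun x => ¬ TP x.1 x.2)).filter (fun x => s(x.1, x.2) = s(a, b)) ⊆
          {(a, b), (b, a)} := by
        rintro ⟨u, v⟩ hx
        have h1 := (mem_filter.1 hx).2
        rw [mem_insert, mem_singleton]
        rcases Sym2.eq_iff.1 h1 with ⟨h2, h3⟩ | ⟨h2, h3⟩
        · left; exact Prod.ext h2 h3
        · right; exact Prod.ext h2 h3
      exact (card_le_card hsub).trans (card_le_two)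
  have hQcut : Q.card ≤ cut G K := by
    have h1 : Q.card = ∑ u ∈ Q, 1 := by simp
    have h2 : ∑ u ∈ Q, 1 ≤ ∑ u ∈ Q, ∑ v ∈ Kᶜ, (if G.Adj u v then 1 else 0) := by
      refine sum_le_sum fun u hu => ?_
      obtain ⟨huK, hup⟩ := mem_filter.1 hu
      have h3 : par u ∈ Kᶜ := mem_compl.2 hup
      refine le_trans ?_ (single_le_sum (f := fun v => if G.Adj u v then 1 else 0)
        (fun v _ => Nat.zero_le _) h3)
      simp [hpar1 u huK]
    have h3 : ∑ u ∈ Q, ∑ v ∈ Kᶜ, (if G.Adj u v then 1 else 0) ≤ cut G K :=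
      sum_le_sum_of_subset (filter_subset _ _)
    omega
  have hEnc : En.card ≤ Q.card := by
    by_contra hlt
    push Not at hlt
    obtain ⟨F, hFE, hF⟩ := exists_subset_card_eq (s := En) (n := Q.card + 1) (by omega)
    have hFm : ∀ e ∈ F, e.out.1 ∈ K ∧ e.out.2 ∈ K ∧ G.Adj e.out.1 e.out.2 ∧
        ¬ TP e.out.1 e.out.2 := by
      intro e he
      obtain ⟨⟨u, v⟩, hx, hxe⟩ := mem_image.1 (hFE he)
      obtain ⟨h1, h4⟩ := mem_filter.1 hx
      obtain ⟨h3, h5⟩ := mem_filter.1 h1
      obtain ⟨hu, hv⟩ := mem_product.1 h3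
      have h6 : s(e.out.1, e.out.2) = e := Quot.out_eq e
      have h7 : s(e.out.1, e.out.2) = s(u, v) := h6.trans hxe.symm
      rcases Sym2.eq_iff.1 h7 with ⟨h8, h9⟩ | ⟨h8, h9⟩
      · rw [h8, h9]
        exact ⟨hu, hv, h5, h4⟩
      · rw [h8, h9]
        exact ⟨hv, hu, h5.symm, fun h => h4 h.symm⟩
    set S : Finset V := F.biUnion (fun e => A e.out.1 ∪ A e.out.2) with hS
    have hSK : S ⊆ K := by
      intro z hz
      obtain ⟨e, he, hz⟩ := mem_biUnion.1 hz
      obtain ⟨h1, h2, _, _⟩ := hFm e he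
      rcases mem_union.1 hz with hz | hz
      · exact (hA _ h1).1 hz
      · exact (hA _ h2).1 hz
    have hScl : ∀ z ∈ S, par z ∈ K → par z ∈ S := by
      intro z hz hp
      obtain ⟨e, he, hz⟩ := mem_biUnion.1 hz
      obtain ⟨h1, h2, _, _⟩ := hFm e he
      refine mem_biUnion.2 ⟨e, he, ?_⟩
      rcases mem_union.1 hz with hz | hz
      · exact mem_union_left _ ((hA _ h1).2.2.2 z hz hp)
      · exact mem_union_right _ ((hA _ h2).2.2.2 z hz hp)
    have hSc : S.card ≤ N := by
      have h1 : S.card ≤ F.card * (2 * R) := by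
        refine card_biUnion_le_card_mul _ _ _ fun e he => ?_
        obtain ⟨h1, h2, _, _⟩ := hFm e he
        have h3 := (hA _ h1).2.2.1
        have h4 := (hA _ h2).2.2.1
        have h5 := card_union_le (A e.out.1) (A e.out.2)
        omega
      have h2 : F.card * (2 * R) ≤ r * (2 * R) := Nat.mul_le_mul_right _ (by omega)
      have h3 : r * (2 * R) = 2 * r * R := by ring
      omega
    have hFS : ∀ e ∈ F, e.out.1 ∈ S ∧ e.out.2 ∈ S := by
      intro e he
      obtain ⟨h1, h2, _, _⟩ := hFm e he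
      exact ⟨mem_biUnion.2 ⟨e, he, mem_union_left _ (hA _ h1).2.1⟩,
        mem_biUnion.2 ⟨e, he, mem_union_right _ (hA _ h2).2.1⟩⟩
    set TS : Finset (Sym2 V) := (S.filter (fun z => par z ∈ K)).image (fun z => s(z, par z))
      with hTS
    have hTSc : TS.card = (S.filter (fun z => par z ∈ K)).card := by
      refine card_image_of_injOn ?_
      intro z hz z' hz' heq
      rw [mem_coe] at hz hz'
      have hz := hSK (mem_filter.1 hz).1
      have hz' := hSK (mem_filter.1 hz').1
      have heq' : s(z, par z) = s(z', par z') := heq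
      rcases Sym2.eq_iff.1 heq' with ⟨h1, _⟩ | ⟨h1, h2⟩
      · exact h1
      · have h3 := hpar2 z hz
        have h4 := hpar2 z' hz'
        rw [h2] at h3
        rw [← h1] at h4
        omega
    have hdisj : Disjoint TS F := by
      rw [Finset.disjoint_left]
      intro e he he'
      obtain ⟨z, hz, hze⟩ := mem_image.1 he
      obtain ⟨_, _, _, h4⟩ := hFm e he'
      have h6 : s(e.out.1, e.out.2) = e := Quot.out_eq e
      have h7 : s(e.out.1, e.out.2) = s(z, par z) := h6.trans hze.symm
      refine h4 ?_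
      rcases Sym2.eq_iff.1 h7 with ⟨h8, h9⟩ | ⟨h8, h9⟩
      · left; rw [h8, h9]
      · right; rw [h8, h9]
    have hsubE : ((TS ∪ F : Finset (Sym2 V)) : Set (Sym2 V)) ⊆
        {e ∈ G.edgeSet | ∀ v ∈ e, v ∈ (S : Set V)} := by
      intro e he
      rw [mem_coe, mem_union] at he
      rcases he with he | he
      · obtain ⟨z, hz, rfl⟩ := mem_image.1 he
        obtain ⟨h1, h2⟩ := mem_filter.1 hz
        refine ⟨hpar1 z (hSK h1), ?_⟩
        intro v hv
        rcases Sym2.mem_iff.1 hv with rfl | rfl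
        · exact h1
        · exact hScl z h1 h2
      · obtain ⟨h1, h2, h3, h4⟩ := hFm e he
        obtain ⟨h5, h6⟩ := hFS e he
        have h7 : s(e.out.1, e.out.2) = e := Quot.out_eq e
        refine ⟨?_, ?_⟩
        · rw [← h7]; exact h3
        · intro v hv
          rw [← h7] at hv
          rcases Sym2.mem_iff.1 hv with rfl | rfl
          · exact h5
          · exact h6
    have h1 := Set.ncard_le_ncard hsubE (Set.toFinite _)
    rw [Set.ncard_coe_finset, card_union_of_disjoint hdisj, hTSc, hF] at h1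
    have h2 := hs (S : Set V) (by rw [Set.ncard_coe_finset]; exact hSc)
    rw [Set.ncard_coe_finset] at h2
    have h3 : (S.filter (fun z => par z ∈ K)).card + (S.filter (fun z => ¬ par z ∈ K)).card =
        S.card := card_filter_add_card_filter_not _
    have h4 : (S.filter (fun z => ¬ par z ∈ K)).card ≤ Q.card := by
      refine card_le_card ?_
      intro z hz
      obtain ⟨h5, h6⟩ := mem_filter.1 hz
      exact mem_filter.2 ⟨hSK h5, h6⟩
    omega
  have hDD : (D.filter (fun x => TP x.1 x.2)).card + (D.filter (fun x => ¬ TP x.1 x.2)).card =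
      D.card := card_filter_add_card_filter_not _
  have hdeg : wt G K K + cut G K = r * K.card := by
    have h1 : wt G K K + cut G K = wt G K (K ∪ Kᶜ) :=
      (wt_union_right G K disjoint_compl_right).symm
    rw [h1, union_compl, wt]
    have h2 : ∀ u ∈ K, (∑ v, if G.Adj u v then 1 else 0) = r := by
      intro u _
      rw [← card_filter, ← hreg u, Set.ncard_eq_toFinset_card']
      congr 1
      ext v
      simp
    rw [sum_congr rfl h2, sum_const, smul_eq_mul, mul_comm]
  have hDle : D.card ≤ K.card * K.card - K.card := by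
    rw [← offDiag_card]
    refine card_le_card ?_
    rintro ⟨u, v⟩ hx
    obtain ⟨h3, h4⟩ := mem_filter.1 hx
    obtain ⟨hu, hv⟩ := mem_product.1 h3
    exact mem_offDiag.2 ⟨hu, hv, h4.ne⟩
  have hKpos : 1 ≤ K.card := card_pos.2 hK
  rw [hwD] at hdeg
  generalize K.card = n at *
  generalize Q.card = q at *
  generalize N0.card = m at *
  generalize D.card = d at *
  have e2 : n * n - n + n = n * n := Nat.sub_add_cancel (by nlinarith)
  have f1 : r * n ≤ r - 1 + 2 * n := by omega
  have f2 : r * n + n ≤ r - 1 + n * n := by omega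
  have f3 : r + 1 ≤ n := by
    by_contra hlt
    push Not at hlt
    have h4 : n ≤ r := by omega
    obtain ⟨t, rfl⟩ := Nat.exists_eq_add_of_le h4
    have h5 : (n + t) * n = n * n + t * n := by ring
    have h6 : t ≤ t * n := Nat.le_mul_of_pos_right t hKpos
    omega
  obtain ⟨t, rfl⟩ : ∃ t, r = t + 3 := ⟨r - 3, by omega⟩
  have h7 : (t + 3) * n = t * n + 3 * n := by ring
  have h8 : t ≤ t * n := Nat.le_mul_of_pos_right t hKpos
  omega

theorem exists_sep_sparse {V : Type} [Finite V] (G : SimpleGraph V) (r R N : ℕ) (hr : 3 ≤ r)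
    (hR : 1 ≤ R) (hN : 2 * r * R ≤ N) (hreg : ∀ v, (G.neighborSet v).ncard = r)
    (hs : Sparse N G) :
    ∃ (P : SimpleGraph V) (Y : Set V), P ≤ G ∧ (∀ v, 1 ≤ (P.neighborSet v).ncard) ∧
      (∀ v, v ∉ Y → (P.neighborSet v).ncard ≤ 1) ∧ (∀ v, (P.neighborSet v).ncard ≤ 2) ∧
      ∀ a ∈ Y, ∀ b ∈ Y, a ≠ b → ∀ p : G.Walk a b, 2 * R + 1 ≤ p.length := by
  classical
  have := Fintype.ofFinite V
  let T := {K : Finset V // Mini G r K}
  have hdeep : ∀ t : T, ∃ y ∈ t.1, ∀ (w : V) (p : G.Walk y w), p.length ≤ R → w ∈ t.1 :=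
    fun t => deep_sparse G r R N hr hN hreg hs t.1 t.2.1 t.2.2.1
  choose y hy1 hy2 using hdeep
  have hsep : ∀ t t' : T, t ≠ t' → ∀ p : G.Walk (y t) (y t'), 2 * R + 1 ≤ p.length := by
    intro t t' hne p
    by_contra hlt
    push Not at hlt
    have h1 : p.getVert R ∈ t.1 := by
      refine hy2 t _ (p.take R) ?_
      rw [Walk.take_length]
      exact min_le_left _ _
    have h2 : p.getVert R ∈ t'.1 := by
      refine hy2 t' _ (p.drop R).reverse ?_
      rw [Walk.length_reverse, Walk.drop_length]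
      omega
    have h3 := mini_disj G t.2 t'.2 (fun h => hne (Subtype.ext h))
    exact Finset.disjoint_left.1 h3 h1 h2
  have hinj : Function.Injective y := by
    intro t t' h
    by_contra hne
    have := hsep t t' hne ((Walk.nil : G.Walk (y t) (y t)).copy rfl h)
    rw [Walk.length_copy, Walk.length_nil] at this
    omega
  have hnadj : ∀ t t', ¬ G.Adj (y t) (y t') := by
    intro t t' h
    have hne : t ≠ t' := by
      rintro rfl
      exact G.irrefl h
    have := hsep t t' hne h.toWalk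
    have h1 : h.toWalk.length = 1 := by simp [SimpleGraph.Adj.toWalk]
    omega
  let p : ℕ := (Nat.card V + Nat.card T) % 2
  have hev : Even (Nat.card (V ⊕ (T ⊕ Fin p))) := by
    rw [Nat.card_sum, Nat.card_sum, Nat.card_fin, Nat.even_iff]
    omega
  obtain ⟨M, hM⟩ := twin_pm G y p r (by omega) hreg hev (by
    intro X hX hc
    obtain ⟨K, hKX, hK⟩ := exists_mini G hX hc
    refine ⟨⟨K, hK⟩, hKX (hy1 _), ?_⟩
    have h1 : (G.neighborSet (y ⟨K, hK⟩)).Nonempty := by
      rw [← Set.ncard_pos (Set.toFinite _), hreg]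
      omega
    obtain ⟨v, hv⟩ := h1
    have hv' : G.Adj (y ⟨K, hK⟩) v := hv
    refine ⟨v, hKX (hy2 ⟨K, hK⟩ v hv'.toWalk ?_), hv'⟩
    simp only [SimpleGraph.Adj.toWalk, Walk.length_cons, Walk.length_nil]
    omega)
  obtain ⟨P, hP1, hP2, hP3, hP4⟩ := exists_P G y p M hM hinj hnadj
  refine ⟨P, Set.range y, hP1, hP2, hP3, hP4, ?_⟩
  rintro _ ⟨t, rfl⟩ _ ⟨t', rfl⟩ hne q
  exact hsep t t' (fun h => hne (by rw [h])) q

end Pool.Agent.W5h10.RL
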