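import Pool.Agent.W111.LAR.OddTop
import Pool.Agent.W5h10.RL.SpDeep
import Pool.Agent.W5h10.RL.SpEven

set_option autoImplicit false

/-!
Odd degree: a conflict-free choice of edges of the cyclic components, if the short components are far
apart.
-/

namespace Pool.Agent.W5h10.RL

open Finset SimpleGraph H931R3.LA Pool.Agent.W111.LAR

/-- A conflict-free choice of an edge from each cyclic component gives a cover. -/
theorem cov_of_choice {V κ : Type} [Finite V] [Fintype κ] (H : κ → SimpleGraph V)
    (P : SimpleGraph V) (Y : Set V) (hdeg : ∀ i v, ((H i).neighborSet v).ncard ≤ 2)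
    (hP1 : ∀ v, v ∉ Y → (P.neighborSet v).ncard ≤ 1) (hP2 : ∀ v, (P.neighborSet v).ncard ≤ 2)
    (hYY : ∀ a ∈ Y, ∀ b ∈ Y, ¬ P.Adj a b)
    (hch : ∀ key : V → ℕ, ∃ s : II H → EE H, (∀ c, cl (s c) = c ∧ aa (s c) ∉ Y ∧
      bb (s c) ∉ Y ∧ ∀ y, P.Adj y (aa (s c)) → ¬ P.Adj y (bb (s c))) ∧
      ∀ c c', c ≠ c' → ¬ conf (partner P Y) key (s c) (s c')) :
    Cov (P ⊔ ⨆ i, H i) (Fintype.card κ + 1) := by
  classical
  have := Fintype.ofFinite V
  obtain ⟨key, hk1, hk2⟩ := exists_key2 P Y hP1 hYY
  obtain ⟨s, hs, hind⟩ := hch key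
  -- selected edges at a vertex
  have hselinc : ∀ v u, (selGraph aa bb s).Adj v u → ∃ c, s(aa (s c), bb (s c)) = s(v, u) := by
    rintro v u ⟨_, c, hc⟩
    refine ⟨c, ?_⟩
    rcases hc with ⟨h1, h2⟩ | ⟨h1, h2⟩
    · rw [h1, h2]
    · rw [h1, h2, Sym2.eq_swap]
  have hselincv : ∀ v u c, s(aa (s c), bb (s c)) = s(v, u) → (aa (s c) = v ∨ bb (s c) = v) := by
    intro v u c h
    rcases Sym2.eq_iff.1 h with ⟨h1, _⟩ | ⟨_, h1⟩
    · exact Or.inl h1
    · exact Or.inr h1
  have hselY : ∀ v u, (selGraph aa bb s).Adj v u → v ∉ Y := by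
    intro v u h
    obtain ⟨c, hc⟩ := hselinc v u h
    rcases hselincv v u c hc with h1 | h1
    · rw [← h1]; exact (hs c).2.1
    · rw [← h1]; exact (hs c).2.2.1
  have hselH : ∀ v u, (selGraph aa bb s).Adj v u → ∃ i, (H i).Adj v u := by
    rintro v u ⟨_, c, hc⟩
    refine ⟨(s c).1.1, ?_⟩
    rcases hc with ⟨h1, h2⟩ | ⟨h1, h2⟩
    · rw [← h1, ← h2]; exact adj_ends _
    · rw [← h1, ← h2]; exact (adj_ends _).symm
  have hseluniq : ∀ v u u', (selGraph aa bb s).Adj v u → (selGraph aa bb s).Adj v u' →
      u = u' := by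
    intro v u u' h h'
    obtain ⟨c, hc⟩ := hselinc v u h
    obtain ⟨c', hc'⟩ := hselinc v u' h'
    have hcc : c = c' := by
      by_contra hne
      exact hind c c' hne ⟨by rw [(hs c).1, (hs c').1]; exact hne, Or.inl ⟨v, hselincv v u c hc,
        hselincv v u' c' hc'⟩⟩
    subst hcc
    exact Sym2.congr_right.1 (hc.symm.trans hc')
  have hPuniq : ∀ v w w', v ∉ Y → P.Adj v w → P.Adj v w' → w = w' := fun v w w' hv h h' =>
    (Set.ncard_le_one (Set.toFinite _)).1 (hP1 v hv) w h w' h'
  have hup : ∀ v u, (selGraph aa bb s).Adj v u → key v < key u →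
      ∃ c, s(aa (s c), bb (s c)) = s(v, u) ∧ upAt key (s c) v := by
    intro v u h hlt
    obtain ⟨c, hc⟩ := hselinc v u h
    refine ⟨c, hc, ?_⟩
    rcases Sym2.eq_iff.1 hc with ⟨h1, h2⟩ | ⟨h1, h2⟩
    · exact Or.inl ⟨h1, by rw [h2]; exact hlt⟩
    · exact Or.inr ⟨h2, by rw [h1]; exact hlt⟩
  have hQ : IsLF (P ⊔ selGraph aa bb s) := by
    constructor
    · intro v0 c hc
      -- the two neighbours on the cycle
      have two : ∀ w ∈ c.support, ∃ x y, (P ⊔ selGraph aa bb s).Adj w x ∧
          (P ⊔ selGraph aa bb s).Adj w y ∧ x ≠ y ∧ x ∈ c.support ∧ y ∈ c.support := by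
        intro w hw
        have h2 := hc.ncard_neighborSet_toSubgraph_eq_two hw
        obtain ⟨x, y, hxy, hset⟩ := Set.ncard_eq_two.1 h2
        have hx : c.toSubgraph.Adj w x := by
          have : x ∈ c.toSubgraph.neighborSet w := by rw [hset]; simp
          exact this
        have hy : c.toSubgraph.Adj w y := by
          have : y ∈ c.toSubgraph.neighborSet w := by rw [hset]; simp
          exact this
        have hxs : x ∈ c.support := by
          have := hx.snd_mem
          rwa [Walk.mem_verts_toSubgraph] at this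
        have hys : y ∈ c.support := by
          have := hy.snd_mem
          rwa [Walk.mem_verts_toSubgraph] at this
        exact ⟨x, y, hx.adj_sub, hy.adj_sub, hxy, hxs, hys⟩
      have twoY : ∀ w ∈ c.support, w ∈ Y → ∃ x y, P.Adj w x ∧ P.Adj w y ∧ x ≠ y ∧
          x ∈ c.support ∧ y ∈ c.support := by
        intro w hw hwY
        obtain ⟨x, y, hx, hy, hxy, hxs, hys⟩ := two w hw
        refine ⟨x, y, ?_, ?_, hxy, hxs, hys⟩
        · rcases hx with h | h
          · exact h
          · exact absurd hwY (hselY w x h)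
        · rcases hy with h | h
          · exact h
          · exact absurd hwY (hselY w y h)
      have twoN : ∀ w ∈ c.support, w ∉ Y → ∃ x y, P.Adj w x ∧ (selGraph aa bb s).Adj w y ∧
          x ≠ y ∧ x ∈ c.support ∧ y ∈ c.support := by
        intro w hw hwY
        obtain ⟨x, y, hx, hy, hxy, hxs, hys⟩ := two w hw
        rcases hx with hx1 | hx1 <;> rcases hy with hy1 | hy1
        · exact absurd (hPuniq w x y hwY hx1 hy1) hxy
        · exact ⟨x, y, hx1, hy1, hxy, hxs, hys⟩
        · exact ⟨y, x, hy1, hx1, hxy.symm, hys, hxs⟩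
        · exact absurd (hseluniq w x y hx1 hy1) hxy
      obtain ⟨w0, hw0, hmin0⟩ := exists_min_image c.support.toFinset key ⟨v0, by simp⟩
      have hw0' : w0 ∈ c.support := by simpa using hw0
      obtain ⟨w, hw, hwY, hmin⟩ : ∃ w ∈ c.support, w ∉ Y ∧ ∀ u ∈ c.support, key w ≤ key u := by
        by_cases hY0 : w0 ∈ Y
        · obtain ⟨x, _, hx, _, _, hxs, _⟩ := twoY w0 hw0' hY0
          refine ⟨x, hxs, fun hxY => hYY w0 hY0 x hxY hx, fun u hu => ?_⟩
          rw [← hk1 w0 x hx]
          exact hmin0 u (by simpa using hu)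
        · exact ⟨w0, hw0', hY0, fun u hu => hmin0 u (by simpa using hu)⟩
      -- the selected edge at a vertex with minimal key goes up
      have hgo : ∀ u ∈ c.support, u ∉ Y → key u = key w →
          ∃ z, (selGraph aa bb s).Adj u z ∧ key u < key z := by
        intro u hu huY hku
        obtain ⟨x, y, hx, hy, hxy, _, hys⟩ := twoN u hu huY
        refine ⟨y, hy, lt_of_le_of_ne (hku ▸ hmin y hys) fun h => ?_⟩
        rcases hk2 u y h with h1 | h1 | ⟨z, h1, h2⟩
        · exact hy.ne h1
        · exact hxy (hPuniq u x y huY hx h1)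
        · obtain ⟨c1, hc1⟩ := hselinc u y hy
          rcases Sym2.eq_iff.1 hc1 with ⟨h3, h4⟩ | ⟨h3, h4⟩
          · exact (hs c1).2.2.2 z (by rw [h3]; exact h1) (by rw [h4]; exact h2)
          · exact (hs c1).2.2.2 z (by rw [h3]; exact h2) (by rw [h4]; exact h1)
      obtain ⟨w', hw', hwY', hkw', hpart⟩ : ∃ w' ∈ c.support, w' ∉ Y ∧ key w' = key w ∧
          (partner P Y).Adj w w' := by
        obtain ⟨x, _, hx, _, _, hxs, _⟩ := twoN w hw hwY
        by_cases hxY : x ∈ Y
        · obtain ⟨a, b, ha, hb, hab, has, hbs⟩ := twoY x hxs hxY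
          obtain ⟨w', hw'x, hww', hw's⟩ : ∃ w', P.Adj x w' ∧ w ≠ w' ∧ w' ∈ c.support := by
            by_cases hwa : w = a
            · exact ⟨b, hb, fun h => hab (hwa.symm.trans h), hbs⟩
            · exact ⟨a, ha, hwa, has⟩
          have hw'Y : w' ∉ Y := fun h => hYY x hxY w' h hw'x
          refine ⟨w', hw's, hw'Y, ?_, hww', hwY, hw'Y, Or.inr ⟨x, hxY, hx.symm, hw'x⟩⟩
          rw [← hk1 x w' hw'x, hk1 w x hx]
        · exact ⟨x, hxs, hxY, (hk1 w x hx).symm, hx.ne, hwY, hxY, Or.inl hx⟩
      obtain ⟨y, hy, hlt⟩ := hgo w hw hwY rfl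
      obtain ⟨y', hy', hlt'⟩ := hgo w' hw' hwY' hkw'
      obtain ⟨c1, hc1, hu1⟩ := hup w y hy hlt
      obtain ⟨c2, hc2, hu2⟩ := hup w' y' hy' hlt'
      have hne : c1 ≠ c2 := by
        rintro rfl
        have := hc1.symm.trans hc2
        rcases Sym2.eq_iff.1 this with ⟨h1, _⟩ | ⟨h1, _⟩
        · exact hpart.ne h1
        · rw [← h1] at hlt'
          omega
      exact hind c1 c2 hne ⟨by rw [(hs c1).1, (hs c2).1]; exact hne,
        Or.inr ⟨w, w', hpart, hu1, hu2⟩⟩
    · intro v
      have h1 : (P ⊔ selGraph aa bb s).neighborSet v ⊆ P.neighborSet v ∪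
          (selGraph aa bb s).neighborSet v := by
        intro u hu
        rcases hu with hu | hu
        · exact Or.inl hu
        · exact Or.inr hu
      have h2 := Set.ncard_le_ncard h1 (Set.toFinite _)
      have h3 := Set.ncard_union_le (P.neighborSet v) ((selGraph aa bb s).neighborSet v)
      by_cases hv : v ∈ Y
      · have h4 : (selGraph aa bb s).neighborSet v = ∅ := by
          ext u
          constructor
          · intro hu
            exact absurd hv (hselY v u hu)
          · intro hu
            exact absurd hu (Set.notMem_empty u)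
        have h6 : ((selGraph aa bb s).neighborSet v).ncard = 0 := by rw [h4, Set.ncard_empty]
        have h5 := hP2 v
        omega
      · have h4 : ((selGraph aa bb s).neighborSet v).ncard ≤ 1 :=
          (Set.ncard_le_one (Set.toFinite _)).2 fun u hu u' hu' => hseluniq v u u' hu hu'
        have h5 := hP1 v hv
        omega
  have hmain := assemble hdeg s (fun c => (hs c).1) (P ⊔ selGraph aa bb s) hQ
    (fun c => Or.inr ⟨ends_ne _, c, Or.inl ⟨rfl, rfl⟩⟩)
  have hle : selGraph aa bb s ≤ ⨆ i, H i := by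
    intro u v h
    rw [iSup_adj]
    exact hselH u v h
  rwa [sup_assoc, sup_eq_right.2 hle] at hmain

/-- A conflict-free choice, if some components have a prescribed edge. -/
theorem choice_partial {V κ : Type} [Finite V] [Fintype κ] (H : κ → SimpleGraph V)
    (P : SimpleGraph V) (hP : ∀ v, (P.neighborSet v).ncard ≤ 1) (key : V → ℕ) (L : ℕ)
    (hL : 12 * Fintype.card κ ≤ L + 8) (A : EE H → Prop) (short : II H → Prop)
    (s0 : II H → EE H) (h1 : ∀ c, short c → cl (s0 c) = c ∧ A (s0 c))
    (h2 : ∀ c c', short c → short c' → c ≠ c' → ¬ conf P key (s0 c) (s0 c'))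
    (h3 : ∀ c, ¬ short c →
      L ≤ {e : EE H | cl e = c ∧ A e ∧ ∀ c', short c' → ¬ conf P key e (s0 c')}.ncard) :
    ∃ s : II H → EE H, (∀ c, cl (s c) = c ∧ A (s c)) ∧
      ∀ c c', c ≠ c' → ¬ conf P key (s c) (s c') := by
  classical
  have := Fintype.ofFinite V
  have : Fintype (EE H) := Fintype.ofFinite (EE H)
  have : Fintype (II H) := Fintype.ofFinite (II H)
  rcases Nat.eq_zero_or_pos (Fintype.card κ) with h0 | h0
  · have hem : IsEmpty κ := Fintype.card_eq_zero_iff.1 h0
    have : IsEmpty (II H) := ⟨fun c => hem.elim c.1.1⟩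
    exact ⟨fun c => isEmptyElim c, fun c => isEmptyElim c, fun c => isEmptyElim c⟩
  · have hLpos : 0 < L := by omega
    let J : Type := {c : II H // ¬ short c}
    have hem : ∀ c : J, ∃ g : Fin L → EE H, Function.Injective g ∧
        ∀ i, cl (g i) = c.1 ∧ A (g i) ∧ ∀ c', short c' → ¬ conf P key (g i) (s0 c') := by
      intro c
      have h4 := h3 c.1 c.2
      rw [Set.ncard_eq_toFinset_card'] at h4
      have h5 : Fintype.card (Fin L) ≤ Fintype.card {e : EE H // cl e = c.1 ∧ A e ∧
          ∀ c', short c' → ¬ conf P key e (s0 c')} := by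
        rw [Fintype.card_fin, Fintype.card_subtype]
        refine h4.trans (le_of_eq ?_)
        congr 1
        ext e
        simp
      obtain ⟨g⟩ := Function.Embedding.nonempty_of_card_le h5
      exact ⟨fun i => (g i).1, fun i j h => g.injective (Subtype.ext h), fun i => (g i).2⟩
    choose em hem1 hem2 using hem
    have : Nonempty (Fin L) := ⟨⟨0, hLpos⟩⟩
    obtain ⟨f, hf⟩ := Pool.Agent.H931R2.Haxell.finite (I := J) (S := Fin L)
      (adj := fun x y => conf P key (em x.1 x.2) (em y.1 y.2))
      (fun x y h => conf_symm h) (by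
        intro K hK Z hZ
        by_contra hcon
        push Not at hcon
        have hsub : K ×ˢ (univ : Finset (Fin L)) ⊆ Z.biUnion (fun z =>
            univ.filter (fun x : J × Fin L => conf P key (em x.1 x.2) (em z.1 z.2))) := by
          intro x hx
          obtain ⟨z, hz, hz2⟩ := hcon x.1 (mem_product.1 hx).1 x.2
          exact mem_biUnion.2 ⟨z, hz, mem_filter.2 ⟨mem_univ _, hz2⟩⟩
        have g1 := (card_le_card hsub).trans card_biUnion_le
        have g2 : ∀ z ∈ Z, (univ.filter (fun x : J × Fin L =>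
            conf P key (em x.1 x.2) (em z.1 z.2))).card ≤ 6 * Fintype.card κ - 4 := by
          intro z _
          have g3 := conf_card P hP key (em z.1 z.2)
          have g4 : (univ.filter (fun x : J × Fin L =>
              conf P key (em x.1 x.2) (em z.1 z.2))).card ≤
              (univ.filter (fun e => conf P key e (em z.1 z.2))).card := by
            refine card_le_card_of_injOn (fun x => em x.1 x.2) ?_ ?_
            · intro x hx
              simp only [coe_filter, mem_univ, true_and, Set.mem_ofPred_eq] at hx ⊢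
              exact hx
            · rintro ⟨c, i⟩ _ ⟨c', i'⟩ _ h
              have g5 : em c i = em c' i' := h
              have g6 : c = c' := by
                apply Subtype.ext
                rw [← (hem2 c i).1, ← (hem2 c' i').1, g5]
              subst g6
              rw [hem1 c g5]
          omega
        have g3 := g1.trans (sum_le_sum g2)
        rw [sum_const, smul_eq_mul, card_product, card_univ, Fintype.card_fin] at g3
        have hK1 : 1 ≤ K.card := card_pos.2 hK
        have g4 : Z.card * (6 * Fintype.card κ - 4) ≤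
            (2 * (K.card - 1)) * (6 * Fintype.card κ - 4) := Nat.mul_le_mul_right _ hZ
        have g5 : (2 * (K.card - 1)) * (6 * Fintype.card κ - 4) =
            (K.card - 1) * (2 * (6 * Fintype.card κ - 4)) := by ring
        have g6 : (K.card - 1) * (2 * (6 * Fintype.card κ - 4)) ≤ (K.card - 1) * L :=
          Nat.mul_le_mul_left _ (by omega)
        have g7 : K.card * L = (K.card - 1) * L + L := by
          obtain ⟨t, ht⟩ : ∃ t, K.card = t + 1 := ⟨K.card - 1, by omega⟩
          rw [ht, Nat.add_sub_cancel]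
          ring
        omega) univ
    refine ⟨fun c => if h : short c then s0 c else em ⟨c, h⟩ (f ⟨c, h⟩), ?_, ?_⟩
    · intro c
      by_cases h : short c
      · simp only [dif_pos h]
        exact h1 c h
      · simp only [dif_neg h]
        exact ⟨(hem2 ⟨c, h⟩ _).1, (hem2 ⟨c, h⟩ _).2.1⟩
    · intro c c' hne
      by_cases h : short c <;> by_cases h' : short c'
      · simp only [dif_pos h, dif_pos h']
        exact h2 c c' h h' hne
      · simp only [dif_pos h, dif_neg h']
        exact fun hc => (hem2 ⟨c', h'⟩ _).2.2 c h (conf_symm hc)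
      · simp only [dif_neg h, dif_pos h']
        exact (hem2 ⟨c, h⟩ _).2.2 c' h'
      · simp only [dif_neg h, dif_neg h']
        exact hf ⟨c, h⟩ (mem_univ _) ⟨c', h'⟩ (mem_univ _)
          (fun hh => hne (congrArg Subtype.val hh))

/-- Edges of a cyclic component avoiding a set of vertices. -/
theorem count_avoid {V κ : Type} [Finite V] [Finite κ] {H : κ → SimpleGraph V} (D : Set V)
    (c : II H) : csize (H c.1.1) c.1.2 ≤ {e : EE H | cl e = c ∧ aa e ∉ D ∧ bb e ∉ D}.ncard +
      2 * (D ∩ {w | (H c.1.1).Reachable c.1.2 w}).ncard := by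
  classical
  have := Fintype.ofFinite V
  have := Fintype.ofFinite κ
  have : Fintype (EE H) := Fintype.ofFinite (EE H)
  have : Fintype (II H) := Fintype.ofFinite (II H)
  have h1 := class_card c
  set YC : Finset V := (D ∩ {w | (H c.1.1).Reachable c.1.2 w}).toFinset with hYC
  have h3 : YC.card = (D ∩ {w | (H c.1.1).Reachable c.1.2 w}).ncard := by
    rw [Set.ncard_eq_toFinset_card', hYC]
  have h0 : {e : EE H | cl e = c ∧ aa e ∉ D ∧ bb e ∉ D}.ncard =
      (univ.filter (fun e : EE H => cl e = c ∧ aa e ∉ D ∧ bb e ∉ D)).card := by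
    rw [Set.ncard_eq_toFinset_card']
    congr 1
    ext e
    simp
  have h4 : univ.filter (fun e : EE H => cl e = c) ⊆
      univ.filter (fun e : EE H => cl e = c ∧ aa e ∉ D ∧ bb e ∉ D) ∪
      YC.biUnion (fun y => (star aa bb (univ : Finset (EE H)) y).filter
        (fun e => e.1.1 = c.1.1)) := by
    intro e he
    have he' : cl e = c := (mem_filter.1 he).2
    obtain ⟨h5, h6⟩ := (cl_iff e c).1 he'
    by_cases ha : aa e ∈ D
    · refine mem_union_right _ (mem_biUnion.2 ⟨aa e, ?_, ?_⟩)
      · rw [hYC, Set.mem_toFinset]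
        exact ⟨ha, h6.symm⟩
      · exact mem_filter.2 ⟨mem_filter.2 ⟨mem_univ _, Or.inl rfl⟩, h5⟩
    · by_cases hb : bb e ∈ D
      · refine mem_union_right _ (mem_biUnion.2 ⟨bb e, ?_, ?_⟩)
        · rw [hYC, Set.mem_toFinset]
          refine ⟨hb, h6.symm.trans ?_⟩
          have := (adj_ends e).reachable
          rwa [h5] at this
        · exact mem_filter.2 ⟨mem_filter.2 ⟨mem_univ _, Or.inr rfl⟩, h5⟩
      · exact mem_union_left _ (mem_filter.2 ⟨mem_univ _, he', ha, hb⟩)
  have h5 := (card_le_card h4).trans (card_union_le _ _)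
  have h6 : (YC.biUnion (fun y => (star aa bb (univ : Finset (EE H)) y).filter
        (fun e => e.1.1 = c.1.1))).card ≤ YC.card * 2 := by
    refine card_biUnion_le_card_mul _ _ _ fun y _ => ?_
    by_cases h : Cyc (H c.1.1) y
    · exact (cnt c.1.1 y h).le
    · rw [cnt0 c.1.1 y h]; simp
  omega

end Pool.Agent.W5h10.RL
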