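import Pool.Agent.W5h10.RL.Base
import Pool.Agent.W5h10.RL.Sparse

set_option autoImplicit false

/-!
Small dense sets in random lifts.
-/

namespace Pool.Agent.W5h10.RL

open Finset SimpleGraph

open scoped Classical

section

variable {V E X : Type} [Fintype E] [Fintype X]

/-- All the prescribed values are taken. -/
def Sat (σ : E → Equiv.Perm X) (F : Finset (E × X × X)) : Prop := ∀ f ∈ F, σ f.1 f.2.1 = f.2.2

theorem sat_step (F : Finset (E × X × X)) (f : E × X × X) (hf : f ∉ F) :
    (univ.filter (fun σ : E → Equiv.Perm X => Sat σ (insert f F))).card *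
      (Fintype.card X - F.card) ≤ (univ.filter (fun σ : E → Equiv.Perm X => Sat σ F)).card := by
  obtain ⟨e, x, y⟩ := f
  set S := univ.filter (fun σ : E → Equiv.Perm X => Sat σ (insert (e, x, y) F)) with hS
  set Z : Finset X := univ \ F.image (fun g => g.2.2) with hZ
  have hZc : Fintype.card X - F.card ≤ Z.card := by
    have h1 := card_sdiff_add_card (univ : Finset X) (F.image (fun g => g.2.2))
    have h2 := card_image_le (s := F) (f := fun g => g.2.2)
    have h3 : (univ ∪ F.image (fun g => g.2.2)).card = Fintype.card X := by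
      rw [union_eq_left.2 (subset_univ _), card_univ]
    have h4 : Z.card = (univ \ F.image (fun g => g.2.2)).card := rfl
    omega
  have h1 : S.card * (Fintype.card X - F.card) ≤ (S ×ˢ Z).card := by
    rw [card_product]
    exact Nat.mul_le_mul_left _ hZc
  refine h1.trans ?_
  have hS1 : ∀ σ ∈ S, σ e x = y ∧ Sat σ F := by
    intro σ hσ
    have h2 := (mem_filter.1 hσ).2
    exact ⟨h2 (e, x, y) (mem_insert_self _ _), fun g hg => h2 g (mem_insert_of_mem hg)⟩
  refine card_le_card_of_injOn
    (fun a => Function.update a.1 e (Equiv.swap y a.2 * a.1 e)) ?_ ?_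
  · rintro ⟨σ, z⟩ ha
    rw [mem_coe, mem_product] at ha
    obtain ⟨h2, h3⟩ := hS1 σ ha.1
    rw [mem_coe, mem_filter]
    refine ⟨mem_univ _, ?_⟩
    rintro ⟨e', x', y'⟩ hg
    have h4 : σ e' x' = y' := h3 _ hg
    show (Function.update σ e (Equiv.swap y z * σ e)) e' x' = y'
    by_cases he : e' = e
    · subst he
      rw [Function.update_self, Equiv.Perm.mul_apply, h4]
      refine Equiv.swap_apply_of_ne_of_ne ?_ ?_
      · rintro rfl
        have h5 : x' = x := (σ e').injective (h4.trans h2.symm)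
        subst h5
        exact hf hg
      · rintro rfl
        exact (mem_sdiff.1 ha.2).2 (mem_image.2 ⟨_, hg, rfl⟩)
    · rw [Function.update_of_ne he]
      exact h4
  · rintro ⟨σ, z⟩ ha ⟨σ', z'⟩ ha' heq
    rw [mem_coe, mem_product] at ha ha'
    obtain ⟨h2, _⟩ := hS1 σ ha.1
    obtain ⟨h2', _⟩ := hS1 σ' ha'.1
    have heq' : Function.update σ e (Equiv.swap y z * σ e) =
        Function.update σ' e (Equiv.swap y z' * σ' e) := heq
    have h3 : Equiv.swap y z * σ e = Equiv.swap y z' * σ' e := by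
      have := congrFun heq' e
      rwa [Function.update_self, Function.update_self] at this
    have h4 : z = z' := by
      have := congrArg (fun τ : Equiv.Perm X => τ x) h3
      simp only [Equiv.Perm.mul_apply, h2, h2', Equiv.swap_apply_left] at this
      exact this
    subst h4
    have h5 : σ e = σ' e := mul_left_cancel h3
    have h6 : σ = σ' := by
      funext e'
      by_cases he : e' = e
      · rw [he, h5]
      · have := congrFun heq' e'
        rwa [Function.update_of_ne he, Function.update_of_ne he] at this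
    subst h6
    rfl

theorem sat_card (F : Finset (E × X × X)) (t : ℕ) (ht : F.card + t ≤ Fintype.card X + 1) :
    (univ.filter (fun σ : E → Equiv.Perm X => Sat σ F)).card * t ^ F.card ≤
      Fintype.card (E → Equiv.Perm X) := by
  induction F using Finset.induction_on with
  | empty =>
    rw [card_empty, pow_zero, mul_one]
    exact card_le_univ _
  | insert f F hf ih =>
    rw [card_insert_of_notMem hf] at ht ⊢
    have h1 := sat_step F f hf
    have h2 := ih (by omega)
    have h3 : (univ.filter (fun σ : E → Equiv.Perm X => Sat σ (insert f F))).card * t ≤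
        (univ.filter (fun σ : E → Equiv.Perm X => Sat σ F)).card :=
      (Nat.mul_le_mul_left _ (by omega)).trans h1
    calc (univ.filter (fun σ : E → Equiv.Perm X => Sat σ (insert f F))).card * t ^ (F.card + 1)
        = ((univ.filter (fun σ : E → Equiv.Perm X => Sat σ (insert f F))).card * t) *
          t ^ F.card := by ring
      _ ≤ (univ.filter (fun σ : E → Equiv.Perm X => Sat σ F)).card * t ^ F.card :=
          Nat.mul_le_mul_right _ h3
      _ ≤ _ := h2

variable [Fintype V]

/-- The vertices covered by a set of prescribed values. -/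
noncomputable def VS (p q : E → V) (F : Finset (E × X × X)) : Finset (V × X) :=
  F.image (fun f => (p f.1, f.2.1)) ∪ F.image (fun f => (q f.1, f.2.2))

/-- The number of sets of `m` prescribed values covering fewer than `m` vertices. -/
theorem dense_card (p q : E → V) (m : ℕ) (hm : 0 < m) :
    (univ.filter (fun F : Finset (E × X × X) => F.card = m ∧ (VS p q F).card < m)).card ≤
      (Fintype.card V * Fintype.card X) ^ (m - 1) * (Fintype.card E * (m - 1) ^ 2) ^ m := by
  let Dom := (Fin (m - 1) → V × X) × (Fin m → E × Fin (m - 1) × Fin (m - 1))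
  let g : Dom → Finset (E × X × X) := fun a =>
    univ.image (fun i => ((a.2 i).1, (a.1 (a.2 i).2.1).2, (a.1 (a.2 i).2.2).2))
  have hdom : Fintype.card Dom =
      (Fintype.card V * Fintype.card X) ^ (m - 1) * (Fintype.card E * (m - 1) ^ 2) ^ m := by
    simp only [Dom, Fintype.card_prod, Fintype.card_fun, Fintype.card_fin]
    ring
  rw [← hdom, ← card_univ (α := Dom)]
  refine (card_le_card ?_).trans (card_image_le (s := (univ : Finset Dom)) (f := g))
  intro F hF
  obtain ⟨_, hFm, hFV⟩ := mem_filter.1 hF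
  rw [mem_image]
  -- enumerate the vertices
  have hne : (VS p q F).Nonempty := by
    obtain ⟨f, hf⟩ : F.Nonempty := by
      rw [← card_pos, hFm]; exact hm
    exact ⟨_, mem_union_left _ (mem_image.2 ⟨f, hf, rfl⟩)⟩
  obtain ⟨a0, ha0⟩ := hne
  let ev := (VS p q F).equivFin
  let w : Fin (m - 1) → V × X := fun j =>
    if h : j.1 < (VS p q F).card then (ev.symm ⟨j.1, h⟩).1 else a0
  have hw : ∀ a ∈ VS p q F, ∃ j, w j = a := by
    intro a ha
    have h1 : (ev ⟨a, ha⟩).1 < (VS p q F).card := (ev ⟨a, ha⟩).2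
    refine ⟨⟨(ev ⟨a, ha⟩).1, by omega⟩, ?_⟩
    simp only [w, dif_pos h1, Fin.eta, Equiv.symm_apply_apply]
  have hwi : ∀ f : E × X × X, ∃ j j' : Fin (m - 1), f ∈ F → w j = (p f.1, f.2.1) ∧
      w j' = (q f.1, f.2.2) := by
    intro f
    by_cases hf : f ∈ F
    · obtain ⟨j, hj⟩ := hw _ (mem_union_left _ (mem_image.2 ⟨f, hf, rfl⟩))
      obtain ⟨j', hj'⟩ := hw _ (mem_union_right _ (mem_image.2 ⟨f, hf, rfl⟩))
      exact ⟨j, j', fun _ => ⟨hj, hj'⟩⟩
    · obtain ⟨j, _⟩ := hw a0 ha0
      exact ⟨j, j, fun h => absurd h hf⟩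
  choose u u' hu using hwi
  let eF := F.equivFinOfCardEq hFm
  refine ⟨(w, fun i => ((eF.symm i).1.1, u (eF.symm i).1, u' (eF.symm i).1)), mem_univ _, ?_⟩
  ext f
  simp only [g, mem_image, mem_univ, true_and]
  constructor
  · rintro ⟨i, rfl⟩
    obtain ⟨h1, h2⟩ := hu (eF.symm i).1 (eF.symm i).2
    rw [h1, h2]
    exact (eF.symm i).2
  · intro hf
    refine ⟨eF ⟨f, hf⟩, ?_⟩
    rw [Equiv.symm_apply_apply]
    obtain ⟨h1, h2⟩ := hu f hf
    rw [h1, h2]

/-- The number of voltage assignments for which some `m` edges cover fewer than `m` vertices. -/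
theorem dense_count (p q : E → V) (m t : ℕ) (hm : 0 < m) (ht : m + t ≤ Fintype.card X + 1) :
    (univ.filter (fun σ : E → Equiv.Perm X => ∃ F : Finset (E × X × X), F.card = m ∧
      (VS p q F).card < m ∧ Sat σ F)).card * t ^ m ≤
      ((Fintype.card V * Fintype.card X) ^ (m - 1) * (Fintype.card E * (m - 1) ^ 2) ^ m) *
        Fintype.card (E → Equiv.Perm X) := by
  set T := univ.filter (fun F : Finset (E × X × X) => F.card = m ∧ (VS p q F).card < m) with hT
  have h1 : univ.filter (fun σ : E → Equiv.Perm X => ∃ F : Finset (E × X × X), F.card = m ∧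
      (VS p q F).card < m ∧ Sat σ F) ⊆ T.biUnion (fun F =>
        univ.filter (fun σ : E → Equiv.Perm X => Sat σ F)) := by
    intro σ hσ
    obtain ⟨_, F, hF1, hF2, hF3⟩ := mem_filter.1 hσ
    exact mem_biUnion.2 ⟨F, mem_filter.2 ⟨mem_univ _, hF1, hF2⟩, mem_filter.2 ⟨mem_univ _, hF3⟩⟩
  have h2 := (card_le_card h1).trans card_biUnion_le
  have h3 := Nat.mul_le_mul_right (t ^ m) h2
  rw [sum_mul] at h3
  refine h3.trans ?_
  have h4 : ∀ F ∈ T, (univ.filter (fun σ : E → Equiv.Perm X => Sat σ F)).card * t ^ m ≤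
      Fintype.card (E → Equiv.Perm X) := by
    intro F hF
    obtain ⟨_, hF1, _⟩ := mem_filter.1 hF
    have := sat_card F t (by omega)
    rwa [hF1] at this
  refine (sum_le_sum h4).trans ?_
  rw [sum_const, smul_eq_mul]
  exact Nat.mul_le_mul_right _ (dense_card p q m hm)

theorem dense_ncard (p q : E → V) (m t : ℕ) (hm : 0 < m) (ht : m + t ≤ Fintype.card X + 1) :
    {σ : E → Equiv.Perm X | ∃ F : Finset (E × X × X), F.card = m ∧
      (VS p q F).card < m ∧ Sat σ F}.ncard * t ^ m ≤
      ((Fintype.card V * Fintype.card X) ^ (m - 1) * (Fintype.card E * (m - 1) ^ 2) ^ m) *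
        Nat.card (E → Equiv.Perm X) := by
  have h1 := dense_count (X := X) p q m t hm ht
  rw [Set.ncard_eq_toFinset_card', Set.toFinset_ofPred, Nat.card_eq_fintype_card]
  exact h1

end

/-- If a lift has a small dense set, then some `m` edges cover fewer than `m` vertices. -/
theorem exists_dense {V E X : Type} [Fintype V] [Fintype E] [Fintype X] (p q : E → V) (N : ℕ)
    (σ : E → Equiv.Perm X) (h : ¬ Sparse N (lift p q σ : SimpleGraph (V × X))) :
    ∃ m, 0 < m ∧ m ≤ N + 1 ∧ ∃ F : Finset (E × X × X), F.card = m ∧ (VS p q F).card < m ∧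
      Sat σ F := by
  unfold Sparse at h
  push Not at h
  obtain ⟨S, hS, hlt⟩ := h
  set T : Set (Sym2 (V × X)) := {e ∈ (lift p q σ : SimpleGraph (V × X)).edgeSet | ∀ v ∈ e, v ∈ S}
    with hT
  obtain ⟨U, hUT, hU⟩ := exists_subset_card_eq (s := T.toFinset) (n := S.ncard + 1) (by
    rw [← Set.ncard_eq_toFinset_card']
    exact hlt)
  have hg : ∀ d : Sym2 (V × X), ∃ f : E × X × X, d ∈ U →
      s((p f.1, f.2.1), (q f.1, f.2.2)) = d ∧ σ f.1 f.2.1 = f.2.2 := by
    intro d
    by_cases hd : d ∈ U
    · have h1 := Set.mem_toFinset.1 (hUT hd)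
      obtain ⟨h2, _⟩ := h1
      induction d with
      | _ a b =>
        obtain ⟨_, e, ⟨h3, h4, h5⟩ | ⟨h3, h4, h5⟩⟩ := h2
        · refine ⟨(e, a.2, b.2), fun _ => ⟨?_, h5⟩⟩
          show s((p e, a.2), (q e, b.2)) = s(a, b)
          rw [h3, h4]
        · refine ⟨(e, b.2, a.2), fun _ => ⟨?_, h5⟩⟩
          show s((p e, b.2), (q e, a.2)) = s(a, b)
          rw [h3, h4]
          exact Sym2.eq_swap
    · have hUne : U.Nonempty := by
        rw [← card_pos]; omega
      obtain ⟨d', hd'⟩ := hUne
      have h1 := Set.mem_toFinset.1 (hUT hd')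
      obtain ⟨h2, _⟩ := h1
      induction d' with
      | _ a b =>
        obtain ⟨_, e, _⟩ := h2
        exact ⟨(e, a.2, a.2), fun h' => absurd h' hd⟩
  choose g hg using hg
  refine ⟨S.ncard + 1, by omega, by omega, U.image g, ?_, ?_, ?_⟩
  · rw [card_image_of_injOn, hU]
    intro d hd d' hd' heq
    rw [mem_coe] at hd hd'
    have h1 := (hg d hd).1
    have h2 := (hg d' hd').1
    rw [← h1, ← h2, heq]
  · have h1 : VS p q (U.image g) ⊆ S.toFinset := by
      intro a ha
      rw [Set.mem_toFinset]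
      rcases mem_union.1 ha with ha | ha
      · obtain ⟨f, hf, rfl⟩ := mem_image.1 ha
        obtain ⟨d, hd, rfl⟩ := mem_image.1 hf
        have h2 := (Set.mem_toFinset.1 (hUT hd)).2
        refine h2 _ ?_
        have h3 := (hg d hd).1
        have h4 := Sym2.mem_mk_left (p (g d).1, (g d).2.1) (q (g d).1, (g d).2.2)
        rwa [h3] at h4
      · obtain ⟨f, hf, rfl⟩ := mem_image.1 ha
        obtain ⟨d, hd, rfl⟩ := mem_image.1 hf
        have h2 := (Set.mem_toFinset.1 (hUT hd)).2
        refine h2 _ ?_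
        have h3 := (hg d hd).1
        have h4 := Sym2.mem_mk_right (p (g d).1, (g d).2.1) (q (g d).1, (g d).2.2)
        rwa [h3] at h4
    have h2 := card_le_card h1
    rw [← Set.ncard_eq_toFinset_card'] at h2
    omega
  · intro f hf
    obtain ⟨d, hd, rfl⟩ := mem_image.1 hf
    exact (hg d hd).2

/-- The proportion of lifts with a small dense set is `O(1 / n)`. -/
theorem nonsparse_count {V E : Type} [Finite V] [Finite E] (p q : E → V) (N : ℕ) :
    ∃ C : ℕ, ∀ n : ℕ, 0 < n → n * {σ : E → Equiv.Perm (Fin n) | ¬ Sparse N (lift p q σ :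
      SimpleGraph (V × Fin n))}.ncard ≤ C * n.factorial ^ Nat.card E := by
  have := Fintype.ofFinite V
  have := Fintype.ofFinite E
  let c : ℕ → ℕ := fun m => 2 ^ m * (Fintype.card V ^ (m - 1) *
    (Fintype.card E * (m - 1) ^ 2) ^ m)
  refine ⟨∑ m ∈ Icc 1 (N + 1), c m + 2 * N + 2, fun n hn => ?_⟩
  have htot : Nat.card (E → Equiv.Perm (Fin n)) = n.factorial ^ Nat.card E := by
    rw [Nat.card_fun]
    congr 1
    rw [Nat.card_eq_fintype_card, Fintype.card_perm, Fintype.card_fin]
  rw [← htot, Set.ncard_eq_toFinset_card', Set.toFinset_ofPred]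
  rcases Nat.lt_or_ge n (2 * N + 2) with hlt | hge
  · have h1 : (univ.filter (fun σ : E → Equiv.Perm (Fin n) => ¬ Sparse N (lift p q σ :
      SimpleGraph (V × Fin n)))).card ≤ Nat.card (E → Equiv.Perm (Fin n)) := by
      rw [Nat.card_eq_fintype_card]
      exact card_le_univ _
    calc _ ≤ n * Nat.card (E → Equiv.Perm (Fin n)) := Nat.mul_le_mul_left _ h1
      _ ≤ _ := Nat.mul_le_mul_right _ (by omega)
  · have h1 : univ.filter (fun σ : E → Equiv.Perm (Fin n) => ¬ Sparse N (lift p q σ :
        SimpleGraph (V × Fin n))) ⊆ (Icc 1 (N + 1)).biUnion (fun m =>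
        univ.filter (fun σ : E → Equiv.Perm (Fin n) => ∃ F : Finset (E × Fin n × Fin n),
          F.card = m ∧ (VS p q F).card < m ∧ Sat σ F)) := by
      intro σ hσ
      obtain ⟨m, h2, h3, h4⟩ := exists_dense p q N σ (mem_filter.1 hσ).2
      exact mem_biUnion.2 ⟨m, mem_Icc.2 ⟨h2, h3⟩, mem_filter.2 ⟨mem_univ _, h4⟩⟩
    have h2 := (card_le_card h1).trans card_biUnion_le
    have h3 := Nat.mul_le_mul_left n h2
    rw [mul_sum] at h3
    refine h3.trans ?_
    have h4 : ∀ m ∈ Icc 1 (N + 1), n * (univ.filter (fun σ : E → Equiv.Perm (Fin n) =>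
        ∃ F : Finset (E × Fin n × Fin n), F.card = m ∧ (VS p q F).card < m ∧ Sat σ F)).card ≤
        c m * Nat.card (E → Equiv.Perm (Fin n)) := by
      intro m hm
      obtain ⟨hm1, hm2⟩ := mem_Icc.1 hm
      set B := (univ.filter (fun σ : E → Equiv.Perm (Fin n) =>
        ∃ F : Finset (E × Fin n × Fin n), F.card = m ∧ (VS p q F).card < m ∧ Sat σ F)).card
        with hB
      have h5 : B * (n - N) ^ m ≤ ((Fintype.card V * n) ^ (m - 1) *
          (Fintype.card E * (m - 1) ^ 2) ^ m) * Nat.card (E → Equiv.Perm (Fin n)) := by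
        have h7 := dense_ncard (X := Fin n) p q m (n - N) (by omega) (by
          rw [Fintype.card_fin]; omega)
        rw [Fintype.card_fin, Set.ncard_eq_toFinset_card', Set.toFinset_ofPred] at h7
        exact h7
      have h6 : n ^ m ≤ 2 ^ m * (n - N) ^ m := by
        rw [← mul_pow]
        exact Nat.pow_le_pow_left (by omega) m
      obtain ⟨j, rfl⟩ : ∃ j, m = j + 1 := ⟨m - 1, by omega⟩
      rw [Nat.add_sub_cancel] at h5
      have hpos : 0 < n ^ j := pow_pos hn j
      refine Nat.le_of_mul_le_mul_right (c := n ^ j) ?_ hpos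
      calc n * B * n ^ j = B * n ^ (j + 1) := by ring
        _ ≤ B * (2 ^ (j + 1) * (n - N) ^ (j + 1)) := Nat.mul_le_mul_left _ h6
        _ = 2 ^ (j + 1) * (B * (n - N) ^ (j + 1)) := by ring
        _ ≤ 2 ^ (j + 1) * ((Fintype.card V * n) ^ j * (Fintype.card E * j ^ 2) ^ (j + 1) *
            Nat.card (E → Equiv.Perm (Fin n))) := Nat.mul_le_mul_left _ h5
        _ = c (j + 1) * Nat.card (E → Equiv.Perm (Fin n)) * n ^ j := by
            simp only [c, Nat.add_sub_cancel]
            ring
    refine (sum_le_sum h4).trans ?_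
    rw [← sum_mul]
    exact Nat.mul_le_mul_right _ (by omega)

end Pool.Agent.W5h10.RL
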